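import Mathlib

set_option autoImplicit false

/-!
# Counting the solutions of the divisibility conditions for Steiner systems `S(n,q,2)`
-/

open Finset

namespace Pool.Agent.N696.SA

/-- the `t ≥ 2` with `a ∣ t`, `b ∣ t - 1` and `(a b - 1) t < X` -/
def TS (X a b : ℕ) : Finset ℕ :=
  (Icc 2 X).filter (fun t => a ∣ t ∧ b ∣ t - 1 ∧ (a * b - 1) * t + 1 ≤ X)

lemma TS_cop {X a b t : ℕ} (ht : t ∈ TS X a b) : a.Coprime b := by
  unfold TS at ht
  rw [mem_filter, mem_Icc] at ht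
  obtain ⟨⟨h2, -⟩, h3, h4, -⟩ := ht
  have h5 : Nat.Coprime t (t - 1) := by
    have : Nat.Coprime (t - 1 + 1) (t - 1) := by simp
    rwa [Nat.sub_add_cancel (by omega)] at this
  exact Nat.Coprime.coprime_dvd_left h3 (Nat.Coprime.coprime_dvd_right h4 h5)

lemma TS_mod {X a b t s : ℕ} (ht : t ∈ TS X a b) (hs : s ∈ TS X a b) : t ≡ s [MOD a * b] := by
  have hc := TS_cop ht
  unfold TS at ht hs
  rw [mem_filter, mem_Icc] at ht hs
  obtain ⟨⟨h2, -⟩, h3, h4, -⟩ := ht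
  obtain ⟨⟨g2, -⟩, g3, g4, -⟩ := hs
  rw [← Nat.modEq_and_modEq_iff_modEq_mul hc]
  constructor
  · exact ((Nat.modEq_zero_iff_dvd.2 h3).trans (Nat.modEq_zero_iff_dvd.2 g3).symm)
  · have e1 : t - 1 ≡ s - 1 [MOD b] := ((Nat.modEq_zero_iff_dvd.2 h4).trans (Nat.modEq_zero_iff_dvd.2 g4).symm)
    have e2 := e1.add_right 1
    rwa [Nat.sub_add_cancel (by omega), Nat.sub_add_cancel (by omega)] at e2

/-- an upper bound -/
lemma TS_card (X a b : ℕ) (hab : 3 ≤ a * b) :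
    ((TS X a b).card : ℝ) ≤ 2 * X * (((a : ℝ) * b) ^ 2)⁻¹ + (if a * b * max a b ≤ 2 * X then 1 else 0) := by
  rcases (TS X a b).eq_empty_or_nonempty with h | ⟨t₀, h0⟩
  · rw [h, card_empty]
    push_cast
    positivity
  have hmem : ∀ t ∈ TS X a b, a * b * t ≤ 2 * X ∧ a ≤ t ∧ b ≤ t := by
    intro t ht
    unfold TS at ht
    rw [mem_filter, mem_Icc] at ht
    obtain ⟨⟨h2, -⟩, h3, h4, h5⟩ := ht
    refine ⟨?_, Nat.le_of_dvd (by omega) h3, ?_⟩
    · obtain ⟨m, hm⟩ : ∃ m, a * b = m + 3 := ⟨a * b - 3, by omega⟩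
      rw [hm] at h5 ⊢
      have e : (m + 3 - 1) = m + 2 := by omega
      rw [e] at h5
      nlinarith
    · have := Nat.le_of_dvd (by omega) h4
      omega
  have hind : a * b * max a b ≤ 2 * X := by
    obtain ⟨h1, h2, h3⟩ := hmem t₀ h0
    exact le_trans (Nat.mul_le_mul_left _ (max_le h2 h3)) h1
  rw [if_pos hind]
  have hpos : 0 < a * b := by omega
  have hcard : (TS X a b).card ≤ (2 * X / (a * b)) / (a * b) + 1 := by
    rw [← card_range ((2 * X / (a * b)) / (a * b) + 1)]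
    apply card_le_card_of_injOn (fun t => t / (a * b))
    · intro t ht
      have h1 := (hmem t ht).1
      rw [coe_range, Set.mem_Iio, Nat.lt_succ_iff]
      apply Nat.div_le_div_right
      rw [Nat.le_div_iff_mul_le hpos, mul_comm]
      exact h1
    · intro t ht s hs hts
      have h1 := TS_mod ht hs
      have h2 : t % (a * b) = s % (a * b) := h1
      simp only at hts
      rw [← Nat.div_add_mod t (a * b), ← Nat.div_add_mod s (a * b), hts, h2]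
  have h2 : (((2 * X / (a * b)) / (a * b) : ℕ) : ℝ) ≤ 2 * X * (((a : ℝ) * b) ^ 2)⁻¹ := by
    have hp : (0 : ℝ) < (a : ℝ) * b := by exact_mod_cast hpos
    calc (((2 * X / (a * b)) / (a * b) : ℕ) : ℝ) ≤ ((2 * X / (a * b) : ℕ) : ℝ) / ((a * b : ℕ) : ℝ) := Nat.cast_div_le
      _ ≤ (((2 * X : ℕ) : ℝ) / ((a * b : ℕ) : ℝ)) / ((a * b : ℕ) : ℝ) := by
          gcongr
          exact Nat.cast_div_le
      _ = 2 * X * (((a : ℝ) * b) ^ 2)⁻¹ := by
          push_cast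
          field_simp
  calc ((TS X a b).card : ℝ) ≤ (((2 * X / (a * b)) / (a * b) + 1 : ℕ) : ℝ) := by exact_mod_cast hcard
    _ = (((2 * X / (a * b)) / (a * b) : ℕ) : ℝ) + 1 := by push_cast; ring
    _ ≤ _ := by linarith

/-- the tail of the sum of `1 / (a b)²` -/
lemma sum_tail (N Q : ℕ) (hQ : 1 ≤ Q) :
    ∑ p ∈ (Icc 1 N ×ˢ Icc 1 N).filter (fun p : ℕ × ℕ => Q ≤ p.1 * p.2), (((p.1 : ℝ) * p.2) ^ 2)⁻¹ ≤
      (6 + 2 * Real.log Q) / Q := by
  have hQ0 : (0 : ℝ) < Q := by exact_mod_cast hQ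
  rw [sum_filter, sum_product]
  have inner : ∀ a ∈ Icc 1 N, ∑ b ∈ Icc 1 N, (if Q ≤ a * b then (((a : ℝ) * b) ^ 2)⁻¹ else 0) ≤
      (if a ≤ Q then 2 / Q * (a : ℝ)⁻¹ else 2 * ((a : ℝ) ^ 2)⁻¹) := by
    intro a ha
    rw [mem_Icc] at ha
    have ha0 : (0 : ℝ) < a := by exact_mod_cast ha.1
    -- k such that b > k, with a * k < Q ≤ a * (k+1)
    obtain ⟨k, hk1, hk2⟩ : ∃ k : ℕ, a * k < Q ∧ Q ≤ a * (k + 1) := by
      refine ⟨(Q - 1) / a, ?_, ?_⟩
      · have := Nat.mul_div_le (Q - 1) a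
        omega
      · have := Nat.lt_mul_div_succ (Q - 1) (show 0 < a by omega)
        omega
    have h1 : ∑ b ∈ Icc 1 N, (if Q ≤ a * b then (((a : ℝ) * b) ^ 2)⁻¹ else 0) ≤
        ∑ b ∈ Ioo k (N + 1), ((a : ℝ) ^ 2)⁻¹ * ((b : ℝ) ^ 2)⁻¹ := by
      rw [← sum_filter]
      have h2 : ∀ b ∈ (Icc 1 N).filter (fun b => Q ≤ a * b), (((a : ℝ) * b) ^ 2)⁻¹ = ((a : ℝ) ^ 2)⁻¹ * ((b : ℝ) ^ 2)⁻¹ := by
        intro b _
        rw [mul_pow, mul_inv]
      rw [sum_congr rfl h2]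
      apply sum_le_sum_of_subset_of_nonneg
      · intro b hb
        rw [mem_filter, mem_Icc] at hb
        rw [mem_Ioo]
        refine ⟨?_, by omega⟩
        by_contra hcon
        push Not at hcon
        have := Nat.mul_le_mul_left a hcon
        omega
      · intro b _ _
        positivity
    refine h1.trans ?_
    rw [← mul_sum]
    have h3 := sum_Ioo_inv_sq_le (α := ℝ) k (N + 1)
    have h4 : ((a : ℝ) ^ 2)⁻¹ * ∑ b ∈ Ioo k (N + 1), ((b : ℝ) ^ 2)⁻¹ ≤ ((a : ℝ) ^ 2)⁻¹ * (2 / ((k : ℝ) + 1)) := by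
      gcongr
    refine h4.trans ?_
    have hk0 : (0 : ℝ) ≤ k := Nat.cast_nonneg k
    split_ifs with haQ
    · have h5 : (Q : ℝ) ≤ a * ((k : ℝ) + 1) := by exact_mod_cast hk2
      rw [show ((a : ℝ) ^ 2)⁻¹ * (2 / ((k : ℝ) + 1)) = 2 * (a : ℝ)⁻¹ * (1 / (a * ((k : ℝ) + 1))) by field_simp]
      rw [show 2 / (Q : ℝ) * (a : ℝ)⁻¹ = 2 * (a : ℝ)⁻¹ * (1 / Q) by ring]
      gcongr
    · rw [mul_comm]
      gcongr
      rw [div_le_iff₀ (by positivity)]
      linarith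
  refine (sum_le_sum inner).trans ?_
  have h6 : ∑ a ∈ Icc 1 N, (if a ≤ Q then 2 / (Q : ℝ) * (a : ℝ)⁻¹ else 2 * ((a : ℝ) ^ 2)⁻¹) ≤
      ∑ a ∈ Icc 1 Q, 2 / (Q : ℝ) * (a : ℝ)⁻¹ + ∑ a ∈ Ioo Q (N + 1), 2 * ((a : ℝ) ^ 2)⁻¹ := by
    rw [← sum_filter_add_sum_filter_not (Icc 1 N) (fun a => a ≤ Q)]
    apply add_le_add
    · calc ∑ a ∈ (Icc 1 N).filter (fun a => a ≤ Q), (if a ≤ Q then 2 / (Q : ℝ) * (a : ℝ)⁻¹ else 2 * ((a : ℝ) ^ 2)⁻¹) =
          ∑ a ∈ (Icc 1 N).filter (fun a => a ≤ Q), 2 / (Q : ℝ) * (a : ℝ)⁻¹ := by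
            apply sum_congr rfl
            intro a ha
            rw [mem_filter] at ha
            rw [if_pos ha.2]
        _ ≤ _ := by
            apply sum_le_sum_of_subset_of_nonneg
            · intro a ha
              rw [mem_filter, mem_Icc] at ha
              rw [mem_Icc]
              exact ⟨ha.1.1, ha.2⟩
            · intro a _ _
              positivity
    · calc ∑ a ∈ (Icc 1 N).filter (fun a => ¬ a ≤ Q), (if a ≤ Q then 2 / (Q : ℝ) * (a : ℝ)⁻¹ else 2 * ((a : ℝ) ^ 2)⁻¹) =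
          ∑ a ∈ (Icc 1 N).filter (fun a => ¬ a ≤ Q), 2 * ((a : ℝ) ^ 2)⁻¹ := by
            apply sum_congr rfl
            intro a ha
            rw [mem_filter] at ha
            rw [if_neg ha.2]
        _ ≤ _ := by
            apply sum_le_sum_of_subset_of_nonneg
            · intro a ha
              rw [mem_filter, mem_Icc] at ha
              rw [mem_Ioo]
              omega
            · intro a _ _
              positivity
  refine h6.trans ?_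
  rw [← mul_sum, ← mul_sum]
  have h7 : ∑ a ∈ Icc 1 Q, (a : ℝ)⁻¹ ≤ 1 + Real.log Q := by
    have h8 := harmonic_le_one_add_log Q
    have h9 : ((harmonic Q : ℚ) : ℝ) = ∑ a ∈ Icc 1 Q, (a : ℝ)⁻¹ := by
      rw [harmonic_eq_sum_Icc]
      push_cast
      rfl
    rw [← h9]
    exact h8
  have h10 := sum_Ioo_inv_sq_le (α := ℝ) Q (N + 1)
  have h11 : (2 : ℝ) / ((Q : ℝ) + 1) ≤ 2 / Q := by gcongr; linarith
  calc 2 / (Q : ℝ) * ∑ a ∈ Icc 1 Q, (a : ℝ)⁻¹ + 2 * ∑ a ∈ Ioo Q (N + 1), ((a : ℝ) ^ 2)⁻¹ ≤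
      2 / (Q : ℝ) * (1 + Real.log Q) + 2 * (2 / Q) := by
        gcongr
        exact h10.trans h11
    _ = (6 + 2 * Real.log Q) / Q := by ring

/-- the number of pairs with `a b max(a,b) ≤ 2 X` -/
lemma few_pairs (X A : ℕ) (hA : 1 ≤ A) (S : Finset (ℕ × ℕ))
    (hS : ∀ p ∈ S, 1 ≤ p.1 ∧ 1 ≤ p.2 ∧ p.1 * p.2 * max p.1 p.2 ≤ 2 * X) :
    (S.card : ℝ) ≤ 2 * (A : ℝ) ^ 2 + 8 * X / A := by
  -- pairs with p.2 ≤ p.1
  have key : ∀ T : Finset (ℕ × ℕ), (∀ p ∈ T, 1 ≤ p.1 ∧ 1 ≤ p.2 ∧ p.2 ≤ p.1 ∧ p.1 ^ 2 * p.2 ≤ 2 * X) →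
      (T.card : ℝ) ≤ (A : ℝ) ^ 2 + 4 * X / A := by
    intro T hT
    have h1 : T ⊆ (Icc 1 A ×ˢ Icc 1 A) ∪ ((Ioo A (2 * X + 1)).sigma (fun a => Icc 1 (2 * X / a ^ 2))).image
        (fun x => (x.1, x.2)) := by
      intro p hp
      obtain ⟨h1, h2, h3, h4⟩ := hT p hp
      rw [mem_union]
      rcases Nat.lt_or_ge A p.1 with h | h
      · right
        rw [mem_image]
        refine ⟨⟨p.1, p.2⟩, ?_, rfl⟩
        rw [mem_sigma, mem_Ioo, mem_Icc]
        refine ⟨⟨h, ?_⟩, h2, ?_⟩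
        · have : p.1 * 1 ≤ p.1 ^ 2 * p.2 := by
            rw [sq, mul_assoc]
            apply Nat.mul_le_mul_left
            exact Nat.mul_pos h1 h2
          simp only
          omega
        · simp only
          rw [Nat.le_div_iff_mul_le (by positivity), mul_comm]
          exact h4
      · left
        rw [mem_product, mem_Icc, mem_Icc]
        exact ⟨⟨h1, h⟩, h2, h3.trans h⟩
    have h2 := (card_le_card h1).trans (card_union_le _ _)
    have h3 : ((Icc 1 A ×ˢ Icc 1 A).card : ℝ) = (A : ℝ) ^ 2 := by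
      rw [card_product, Nat.card_Icc, Nat.add_sub_cancel]
      push_cast
      ring
    have h4 : ((((Ioo A (2 * X + 1)).sigma (fun a => Icc 1 (2 * X / a ^ 2))).image
        (fun x : (_ : ℕ) × ℕ => ((x.1, x.2) : ℕ × ℕ))).card : ℝ) ≤ 4 * X / A := by
      have h5 : (((Ioo A (2 * X + 1)).sigma (fun a => Icc 1 (2 * X / a ^ 2))).image
        (fun x : (_ : ℕ) × ℕ => ((x.1, x.2) : ℕ × ℕ))).card ≤ ∑ a ∈ Ioo A (2 * X + 1), (2 * X / a ^ 2) := by
        refine card_image_le.trans ?_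
        rw [card_sigma]
        apply le_of_eq
        apply sum_congr rfl
        intro a _
        rw [Nat.card_Icc, Nat.add_sub_cancel]
      calc _ ≤ ((∑ a ∈ Ioo A (2 * X + 1), (2 * X / a ^ 2) : ℕ) : ℝ) := by exact_mod_cast h5
        _ ≤ ∑ a ∈ Ioo A (2 * X + 1), 2 * (X : ℝ) * ((a : ℝ) ^ 2)⁻¹ := by
            push_cast
            apply sum_le_sum
            intro a _
            refine Nat.cast_div_le.trans ?_
            push_cast
            rw [div_eq_mul_inv]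
        _ ≤ 2 * (X : ℝ) * (2 / ((A : ℝ) + 1)) := by
            rw [← mul_sum]
            gcongr
            exact sum_Ioo_inv_sq_le (α := ℝ) A (2 * X + 1)
        _ ≤ 4 * X / A := by
            have : (0 : ℝ) < A := by exact_mod_cast hA
            rw [show 2 * (X : ℝ) * (2 / ((A : ℝ) + 1)) = 4 * X / (A + 1) by ring]
            gcongr
            linarith
    have h6 : (T.card : ℝ) ≤ ((Icc 1 A ×ˢ Icc 1 A).card : ℝ) + ((((Ioo A (2 * X + 1)).sigma (fun a => Icc 1 (2 * X / a ^ 2))).image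
        (fun x : (_ : ℕ) × ℕ => ((x.1, x.2) : ℕ × ℕ))).card : ℝ) := by exact_mod_cast h2
    linarith
  have hk1 := key (S.filter (fun p => p.2 ≤ p.1)) (by
    intro p hp
    rw [mem_filter] at hp
    obtain ⟨h1, h2, h3⟩ := hS p hp.1
    refine ⟨h1, h2, hp.2, ?_⟩
    rw [max_eq_left hp.2] at h3
    calc p.1 ^ 2 * p.2 = p.1 * p.2 * p.1 := by ring
      _ ≤ _ := h3)
  have hk2 := key ((S.filter (fun p => ¬ p.2 ≤ p.1)).image Prod.swap) (by
    intro p hp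
    rw [mem_image] at hp
    obtain ⟨p', hp', rfl⟩ := hp
    rw [mem_filter] at hp'
    obtain ⟨h1, h2, h3⟩ := hS p' hp'.1
    have h4 : p'.1 ≤ p'.2 := by omega
    refine ⟨h2, h1, h4, ?_⟩
    rw [max_eq_right h4] at h3
    simp only [Prod.fst_swap, Prod.snd_swap]
    calc p'.2 ^ 2 * p'.1 = p'.1 * p'.2 * p'.2 := by ring
      _ ≤ _ := h3)
  rw [card_image_of_injective _ Prod.swap_injective] at hk2
  have h := card_filter_add_card_filter_not (s := S) (fun p : ℕ × ℕ => p.2 ≤ p.1)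
  have h' : (S.card : ℝ) = ((S.filter (fun p => p.2 ≤ p.1)).card : ℝ) + ((S.filter (fun p => ¬ p.2 ≤ p.1)).card : ℝ) := by
    exact_mod_cast h.symm
  rw [h']
  calc _ ≤ ((A : ℝ) ^ 2 + 4 * X / A) + ((A : ℝ) ^ 2 + 4 * X / A) := add_le_add hk1 hk2
    _ = _ := by ring

end Pool.Agent.N696.SA
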