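import Pool.Agent.N696.SA.Exact

set_option autoImplicit false

/-!
# The density of the `n` which satisfy the divisibility conditions for some `S(n,q,2)`
-/

open Finset Filter Topology

namespace Pool.Agent.N696.SA

/-- the divisibility conditions for `n = m + 1` -/
def R (q m : ℕ) : Prop := (q - 1) ∣ m ∧ q * (q - 1) ∣ (m + 1) * m

lemma D_iff_R {m q : ℕ} : D (m + 1) q ↔ R q m := by
  have two (m : ℕ) : 2 * m.choose 2 = m * (m - 1) := by
    rw [Nat.choose_two_right, Nat.mul_div_cancel']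
    rcases m with _ | m
    · simp
    · rw [Nat.add_sub_cancel, mul_comm]
      exact (Nat.even_mul_succ_self m).two_dvd
  unfold D R
  constructor
  · intro h
    refine ⟨?_, ?_⟩
    · have := h 1 (by norm_num)
      simpa using this
    · have := h 0 (by norm_num)
      simp only [Nat.sub_zero] at this
      have h2 := Nat.mul_dvd_mul_left 2 this
      rw [two, two, Nat.add_sub_cancel] at h2
      exact h2
  · rintro ⟨h1, h2⟩ i hi
    interval_cases i
    · simp only [Nat.sub_zero]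
      have h3 : q * (q - 1) ∣ (m + 1) * (m + 1 - 1) := by rwa [Nat.add_sub_cancel]
      rw [← two, ← two] at h3
      exact Nat.dvd_of_mul_dvd_mul_left (by norm_num) h3
    · simpa using h1

/-- some `q` with `3 ≤ q < Q` -/
def P (Q m : ℕ) : Prop := ∃ q, 3 ≤ q ∧ q < Q ∧ R q m

lemma R_period {q m L : ℕ} (hL : q * (q - 1) ∣ L) : R q (m + L) ↔ R q m := by
  unfold R
  have h1 : (q - 1) ∣ L := (dvd_mul_left _ _).trans hL
  have e : (m + L + 1) * (m + L) = (m + 1) * m + L * (2 * m + L + 1) := by ring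
  rw [e, Nat.dvd_add_left h1, Nat.dvd_add_left (hL.trans (dvd_mul_right _ _))]

lemma dvd_fact {q Q : ℕ} (hq : 3 ≤ q) (hQ : q < Q) : q * (q - 1) ∣ Q.factorial := by
  obtain ⟨k, rfl⟩ : ∃ k, q = k + 1 := ⟨q - 1, by omega⟩
  rw [Nat.add_sub_cancel]
  have h1 : (k + 1) * k ∣ (k + 1).factorial := by
    rw [Nat.factorial_succ]
    exact Nat.mul_dvd_mul_left _ (Nat.dvd_factorial (by omega) le_rfl)
  exact h1.trans (Nat.factorial_dvd_factorial hQ.le)

lemma P_period (Q m k : ℕ) : P Q (Q.factorial * k + m) ↔ P Q m := by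
  unfold P
  apply exists_congr
  intro q
  constructor
  · rintro ⟨h1, h2, h3⟩
    refine ⟨h1, h2, ?_⟩
    rw [add_comm] at h3
    exact (R_period ((dvd_fact h1 h2).trans (dvd_mul_right _ _))).1 h3
  · rintro ⟨h1, h2, h3⟩
    refine ⟨h1, h2, ?_⟩
    rw [add_comm]
    exact (R_period ((dvd_fact h1 h2).trans (dvd_mul_right _ _))).2 h3

open Classical in
/-- the number of `m < X` -/
noncomputable def cP (Q X : ℕ) : ℕ := Nat.count (P Q) X

open Classical in
lemma cP_mul (Q k : ℕ) : cP Q (Q.factorial * k) = k * cP Q Q.factorial := by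
  induction k with
  | zero => simp [cP]
  | succ k ih =>
    unfold cP at ih ⊢
    rw [Nat.mul_succ, Nat.count_add, ih, Nat.succ_mul]
    congr 1
    rw [Nat.count_eq_card_filter_range, Nat.count_eq_card_filter_range]
    congr 1
    apply filter_congr
    intro m _
    exact P_period Q m k

/-- the density -/
noncomputable def gd (Q : ℕ) : ℝ := (cP Q Q.factorial : ℝ) / Q.factorial

lemma cP_le (Q X : ℕ) : cP Q X ≤ X := by
  classical
  unfold cP
  exact Nat.count_le _

lemma cP_mono (Q : ℕ) {X Y : ℕ} (h : X ≤ Y) : cP Q X ≤ cP Q Y := by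
  classical
  unfold cP
  exact Nat.count_monotone _ h

lemma cP_asym (Q X : ℕ) : |(cP Q X : ℝ) - gd Q * X| ≤ Q.factorial := by
  have hL := Nat.factorial_pos Q
  set L := Q.factorial with hLd
  have hL0 : (0 : ℝ) < L := by exact_mod_cast hL
  have h1 : L * (X / L) ≤ X := Nat.mul_div_le X L
  have h2 : X ≤ L * (X / L + 1) := (Nat.lt_mul_div_succ X hL).le
  have h3 : (X / L) * cP Q L ≤ cP Q X := by
    rw [← cP_mul]; exact cP_mono Q h1
  have h4 : cP Q X ≤ (X / L + 1) * cP Q L := by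
    rw [← cP_mul]; exact cP_mono Q h2
  have h5 : cP Q L ≤ L := cP_le Q L
  have e : gd Q * L = cP Q L := by
    unfold gd
    rw [← hLd]
    field_simp
  have g0 : 0 ≤ gd Q := by unfold gd; positivity
  have r1 : (L : ℝ) * ((X / L : ℕ) : ℝ) ≤ X := by exact_mod_cast h1
  have r2 : (X : ℝ) ≤ L * (((X / L : ℕ) : ℝ) + 1) := by exact_mod_cast h2
  have r3 : ((X / L : ℕ) : ℝ) * cP Q L ≤ cP Q X := by exact_mod_cast h3
  have r4 : (cP Q X : ℝ) ≤ (((X / L : ℕ) : ℝ) + 1) * cP Q L := by exact_mod_cast h4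
  have r5 : (cP Q L : ℝ) ≤ L := by exact_mod_cast h5
  have q1 : gd Q * (L * ((X / L : ℕ) : ℝ)) ≤ gd Q * X := mul_le_mul_of_nonneg_left r1 g0
  have q2 : gd Q * X ≤ gd Q * (L * (((X / L : ℕ) : ℝ) + 1)) := mul_le_mul_of_nonneg_left r2 g0
  have e1 : gd Q * (L * ((X / L : ℕ) : ℝ)) = ((X / L : ℕ) : ℝ) * cP Q L := by rw [← e]; ring
  have e2 : gd Q * (L * (((X / L : ℕ) : ℝ) + 1)) = ((X / L : ℕ) : ℝ) * cP Q L + cP Q L := by rw [← e]; ring
  rw [abs_le]
  constructor <;> nlinarith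

lemma cP_lim (Q : ℕ) : Tendsto (fun X : ℕ => (cP Q X : ℝ) / X) atTop (𝓝 (gd Q)) := by
  have h1 : Tendsto (fun X : ℕ => (Q.factorial : ℝ) / X) atTop (𝓝 0) := tendsto_const_div_atTop_nhds_zero_nat _
  rw [tendsto_iff_norm_sub_tendsto_zero]
  apply squeeze_zero' (g := fun X : ℕ => (Q.factorial : ℝ) / X) (Eventually.of_forall fun _ => norm_nonneg _) _ h1
  filter_upwards [eventually_gt_atTop 0] with X hX
  have hX0 : (0 : ℝ) < X := by exact_mod_cast hX
  have h := cP_asym Q X
  rw [Real.norm_eq_abs, le_div_iff₀ hX0, ← abs_of_pos hX0, ← abs_mul, abs_of_pos hX0]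
  have e : ((cP Q X : ℝ) / X - gd Q) * X = (cP Q X : ℝ) - gd Q * X := by field_simp
  rw [e]
  exact h

lemma P_mono {Q Q' m : ℕ} (h : Q ≤ Q') (hP : P Q m) : P Q' m := by
  obtain ⟨q, h1, h2, h3⟩ := hP
  exact ⟨q, h1, by omega, h3⟩

lemma gd_mono : Monotone gd := by
  classical
  intro Q Q' h
  apply le_of_tendsto_of_tendsto' (cP_lim Q) (cP_lim Q')
  intro X
  apply div_le_div_of_nonneg_right _ (Nat.cast_nonneg X)
  unfold cP
  exact_mod_cast Nat.count_mono_left (fun m _ hm => P_mono h hm)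

lemma gd_le_one (Q : ℕ) : gd Q ≤ 1 := by
  unfold gd
  rw [div_le_one (by exact_mod_cast Nat.factorial_pos Q)]
  exact_mod_cast cP_le Q _

/-- the tail -/
noncomputable def tau (Q : ℕ) : ℝ := (6 + 2 * Real.log Q) / Q

open Classical in
lemma cP_diff (Q Q' X : ℕ) : (cP Q' X) ≤ cP Q X + (Q' + (PD X Q).card) := by
  have h1 : cP Q' X = ((range X).filter (P Q')).card := by
    unfold cP; rw [Nat.count_eq_card_filter_range]
  have h2 : cP Q X = ((range X).filter (P Q)).card := by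
    unfold cP; rw [Nat.count_eq_card_filter_range]
  rw [h1, h2]
  have h3 : (range X).filter (P Q') ⊆ (range X).filter (P Q) ∪ (range Q' ∪ (PD X Q).image (fun p => p.1 - 1)) := by
    intro m hm
    rw [mem_filter, mem_range] at hm
    obtain ⟨hm, q, g1, g2, g3⟩ := hm
    rw [mem_union, mem_union]
    rcases Nat.lt_or_ge q Q with h | h
    · left
      rw [mem_filter, mem_range]
      exact ⟨hm, q, g1, h, g3⟩
    · right
      rcases Nat.lt_or_ge m Q' with h' | h'
      · left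
        rw [mem_range]
        exact h'
      · right
        rw [mem_image]
        refine ⟨(m + 1, q), ?_, by simp⟩
        unfold PD
        rw [mem_filter, mem_product, mem_Icc, mem_Icc]
        refine ⟨⟨⟨by simp, hm⟩, g1, ?_⟩, ?_, h, D_iff_R.2 g3⟩
        · simp only; omega
        · simp only; omega
  refine (card_le_card h3).trans ((card_union_le _ _).trans ?_)
  refine Nat.add_le_add_left ?_ _
  refine (card_union_le _ _).trans ?_
  rw [card_range]
  exact Nat.add_le_add_left card_image_le _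

lemma gd_diff (Q Q' : ℕ) (hQ : 1 ≤ Q) : gd Q' ≤ gd Q + 2 * tau Q := by
  apply le_of_forall_pos_le_add
  intro ε hε
  obtain ⟨A, hA⟩ := exists_nat_gt (8 / (ε / 2))
  have hA0 : (0 : ℝ) < A := lt_trans (by positivity) hA
  have hA1 : 1 ≤ A := by
    have : (0 : ℝ) < A := hA0
    exact_mod_cast this
  have h8 : (8 : ℝ) / A ≤ ε / 2 := by
    rw [div_lt_iff₀ (by positivity)] at hA
    rw [div_le_iff₀ hA0]
    linarith
  have h1 : Tendsto (fun X : ℕ => (cP Q X : ℝ) / X + (2 * tau Q + ε / 2 + ((Q' : ℝ) + 2 * (A : ℝ) ^ 2) / X)) atTop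
      (𝓝 (gd Q + (2 * tau Q + ε / 2 + 0))) :=
    (cP_lim Q).add (tendsto_const_nhds.add (tendsto_const_div_atTop_nhds_zero_nat _))
  have h2 := le_of_tendsto_of_tendsto (cP_lim Q') h1 (by
    filter_upwards [eventually_gt_atTop 0] with X hX
    have hX0 : (0 : ℝ) < X := by exact_mod_cast hX
    have e1 : (cP Q' X : ℝ) ≤ cP Q X + (Q' + (PD X Q).card) := by exact_mod_cast cP_diff Q Q' X
    have e2 := PD_card X Q A hQ hA1
    have e3 : 8 * (X : ℝ) / A ≤ ε / 2 * X := by
      rw [show 8 * (X : ℝ) / A = 8 / A * X by ring]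
      exact mul_le_mul_of_nonneg_right h8 hX0.le
    have e4 : (cP Q' X : ℝ) ≤ cP Q X + ((2 * tau Q + ε / 2) * X + ((Q' : ℝ) + 2 * (A : ℝ) ^ 2)) := by
      unfold tau
      nlinarith
    calc (cP Q' X : ℝ) / X ≤ (cP Q X + ((2 * tau Q + ε / 2) * X + ((Q' : ℝ) + 2 * (A : ℝ) ^ 2))) / X := by gcongr
      _ = _ := by field_simp)
  linarith

/-- the density of the `n` which satisfy the divisibility conditions for some `q ≥ 3` -/
noncomputable def dens : ℝ := ⨆ Q, gd Q

lemma gd_tendsto : Tendsto gd atTop (𝓝 dens) :=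
  tendsto_atTop_ciSup gd_mono ⟨1, by rintro _ ⟨Q, rfl⟩; exact gd_le_one Q⟩

lemma dens_near (Q : ℕ) (hQ : 1 ≤ Q) : |gd Q - dens| ≤ 2 * tau Q := by
  have h1 : gd Q ≤ dens := le_ciSup (f := gd) ⟨1, by rintro _ ⟨Q, rfl⟩; exact gd_le_one Q⟩ Q
  have h2 : dens ≤ gd Q + 2 * tau Q := le_of_tendsto' gd_tendsto (fun Q' => gd_diff Q Q' hQ)
  rw [abs_le]
  constructor <;> linarith

end Pool.Agent.N696.SA
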