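import Pool.Agent.N696.SA.Pairs

set_option autoImplicit false

/-!
# The number of `n ≤ X` which satisfy the divisibility conditions for `S(n,q,2)`, `q` fixed
-/

open Finset

namespace Pool.Agent.N696.SA

/-- the number of the ways to write `q` as a product of two coprime factors -/
def w (q : ℕ) : ℕ := (q.divisorsAntidiagonal.filter (fun p => p.1.Coprime p.2)).card

lemma w_le (q : ℕ) : w q ≤ q := by
  unfold w
  calc _ ≤ (Icc 1 q).card := by
        apply card_le_card_of_injOn Prod.fst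
        · intro p hp
          rw [mem_coe, mem_filter, Nat.mem_divisorsAntidiagonal] at hp
          obtain ⟨⟨h1, h2⟩, -⟩ := hp
          have p1 : 0 < p.1 := Nat.pos_of_ne_zero (by rintro h0; rw [h0] at h1; simp at h1; omega)
          have p2 : 0 < p.2 := Nat.pos_of_ne_zero (by rintro h0; rw [h0] at h1; simp at h1; omega)
          have b1 : p.1 ≤ p.1 * p.2 := Nat.le_mul_of_pos_right _ p2
          rw [mem_coe, mem_Icc]
          omega
        · intro p hp p' hp' hpp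
          rw [mem_coe, mem_filter, Nat.mem_divisorsAntidiagonal] at hp hp'
          obtain ⟨⟨h1, h2⟩, -⟩ := hp
          obtain ⟨⟨h1', h2'⟩, -⟩ := hp'
          have p1 : 0 < p.1 := Nat.pos_of_ne_zero (by rintro h0; rw [h0] at h1; simp at h1; omega)
          refine Prod.ext hpp (Nat.eq_of_mul_eq_mul_left p1 ?_)
          rw [h1, hpp, h1']
    _ = q := by rw [Nat.card_Icc, Nat.add_sub_cancel]

open Classical in
/-- the `n` with `q < n ≤ X` which satisfy the divisibility conditions -/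
noncomputable def NS (X q : ℕ) : Finset ℕ := (Icc 1 X).filter (fun n => q < n ∧ D n q)

lemma TS_dvd {X a b t : ℕ} (ht : t ∈ TS X a b) : a * b ∣ t * (t - 1) := by
  unfold TS at ht
  rw [mem_filter] at ht
  exact Nat.mul_dvd_mul ht.2.1 ht.2.2.1

lemma TS_gcd {X a b t : ℕ} (ht : t ∈ TS X a b) :
    Nat.gcd (a * b) t = a ∧ Nat.gcd (a * b) (t - 1) = b := by
  have hc := TS_cop ht
  unfold TS at ht
  rw [mem_filter, mem_Icc] at ht
  obtain ⟨⟨h2, -⟩, h3, h4, -⟩ := ht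
  have h5 : Nat.Coprime t (t - 1) := by
    have : Nat.Coprime (t - 1 + 1) (t - 1) := by simp
    rwa [Nat.sub_add_cancel (by omega)] at this
  constructor
  · rw [Nat.gcd_comm, Nat.Coprime.gcd_mul t hc, Nat.gcd_eq_right h3]
    have : Nat.gcd t b = 1 := Nat.Coprime.coprime_dvd_right h4 h5
    rw [this, mul_one]
  · rw [Nat.gcd_comm, Nat.Coprime.gcd_mul (t - 1) hc, Nat.gcd_eq_right h4]
    have : Nat.gcd (t - 1) a = 1 := (Nat.Coprime.coprime_dvd_left h3 h5).symm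
    rw [this, one_mul]

lemma NS_card (X q : ℕ) (hq : 3 ≤ q) :
    (NS X q).card = ∑ p ∈ q.divisorsAntidiagonal.filter (fun p => p.1.Coprime p.2), (TS X p.1 p.2).card := by
  classical
  rw [← card_sigma]
  apply card_bij'
    (fun n _ => (⟨(Nat.gcd q ((n - 1) / (q - 1)), Nat.gcd q ((n - 1) / (q - 1) - 1)), (n - 1) / (q - 1)⟩ :
      (_ : ℕ × ℕ) × ℕ))
    (fun x _ => (q - 1) * x.2 + 1)
  · intro n hn
    unfold NS at hn
    rw [mem_filter, mem_Icc] at hn
    obtain ⟨⟨h1, h2⟩, h3, h4⟩ := hn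
    obtain ⟨t, ht, e1, e2, e3⟩ := D_data hq h3 h4
    simp only [e3]
    rw [mem_sigma, mem_filter, Nat.mem_divisorsAntidiagonal]
    exact ⟨⟨⟨gcd_mul_gcd (by omega) e2, by omega⟩, coprime_gcds (by omega)⟩,
      mem_TS hq ht (by rw [← e1]; exact h2) e2⟩
  · rintro ⟨⟨a, b⟩, t⟩ hx
    rw [mem_sigma, mem_filter, Nat.mem_divisorsAntidiagonal] at hx
    obtain ⟨⟨⟨h1, h2⟩, h3⟩, h4⟩ := hx
    simp only at h1 h3 h4 ⊢
    have h5 := TS_dvd h4
    unfold TS at h4
    rw [mem_filter, mem_Icc, h1] at h4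
    rw [h1] at h5
    unfold NS
    rw [mem_filter, mem_Icc]
    refine ⟨⟨by omega, h4.2.2.2⟩, ?_, (D_iff (by omega) (by omega)).2 ⟨t, rfl, h5⟩⟩
    have : (q - 1) * 2 ≤ (q - 1) * t := Nat.mul_le_mul_left _ h4.1.1
    omega
  · intro n hn
    unfold NS at hn
    rw [mem_filter, mem_Icc] at hn
    obtain ⟨⟨h1, h2⟩, h3, h4⟩ := hn
    obtain ⟨t, ht, e1, e2, e3⟩ := D_data hq h3 h4
    simp only [e3]
    exact e1.symm
  · rintro ⟨⟨a, b⟩, t⟩ hx
    rw [mem_sigma, mem_filter, Nat.mem_divisorsAntidiagonal] at hx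
    obtain ⟨⟨⟨h1, h2⟩, h3⟩, h4⟩ := hx
    simp only at h1 h3 h4 ⊢
    have h5 := TS_gcd h4
    rw [h1] at h5
    have e : ((q - 1) * t + 1 - 1) / (q - 1) = t := by
      rw [Nat.add_sub_cancel]
      exact Nat.mul_div_cancel_left t (by omega)
    rw [e, h5.1, h5.2]

lemma TS_asym (X a b : ℕ) (hc : a.Coprime b) (hab : 3 ≤ a * b) :
    |((TS X a b).card : ℝ) - X / (((a * b : ℕ) : ℝ) * (((a * b : ℕ) : ℝ) - 1))| ≤ 4 := by
  obtain ⟨q, hq⟩ : ∃ q, q = a * b := ⟨_, rfl⟩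
  rw [← hq] at hab ⊢
  have hq0 : (3 : ℝ) ≤ q := by exact_mod_cast hab
  rcases Nat.eq_zero_or_pos X with h0 | hX
  · subst h0
    unfold TS
    norm_num
  obtain ⟨v, hv⟩ := Nat.chineseRemainder hc 0 1
  set M := (X - 1) / (q - 1) with hM
  have hset : TS X a b ⊆ (range (M + 1)).filter (fun t => t ≡ v [MOD q]) ∧
      (range (M + 1)).filter (fun t => t ≡ v [MOD q]) ⊆ TS X a b ∪ {0, 1} := by
    constructor
    · intro t ht
      unfold TS at ht
      rw [mem_filter, mem_Icc, ← hq] at ht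
      obtain ⟨⟨h2, -⟩, h3, h4, h5⟩ := ht
      rw [mem_filter, mem_range, Nat.lt_succ_iff]
      refine ⟨?_, ?_⟩
      · rw [hM, Nat.le_div_iff_mul_le (by omega), mul_comm]
        omega
      · rw [hq, ← Nat.modEq_and_modEq_iff_modEq_mul hc]
        refine ⟨(Nat.modEq_zero_iff_dvd.2 h3).trans hv.1.symm, ?_⟩
        refine Nat.ModEq.trans ?_ hv.2.symm
        have e1 : t - 1 + 1 ≡ 0 + 1 [MOD b] := (Nat.modEq_zero_iff_dvd.2 h4).add_right 1
        rwa [Nat.sub_add_cancel (by omega), zero_add] at e1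
    · intro t ht
      rw [mem_filter, mem_range, Nat.lt_succ_iff, hM, Nat.le_div_iff_mul_le (by omega)] at ht
      obtain ⟨h1, h2⟩ := ht
      rw [hq, ← Nat.modEq_and_modEq_iff_modEq_mul hc] at h2
      rw [mem_union]
      rcases Nat.lt_or_ge t 2 with h | h
      · right
        interval_cases t <;> simp
      · left
        unfold TS
        rw [mem_filter, mem_Icc, ← hq]
        refine ⟨⟨h, ?_⟩, Nat.modEq_zero_iff_dvd.1 (h2.1.trans hv.1), ?_, ?_⟩
        · have : t ≤ t * (q - 1) := Nat.le_mul_of_pos_right _ (by omega)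
          omega
        · have e1 := h2.2.trans hv.2
          exact (Nat.modEq_iff_dvd' (by omega)).1 e1.symm
        · rw [mul_comm]; omega
  have hcount : ((range (M + 1)).filter (fun t => t ≡ v [MOD q])).card =
      (M + 1) / q + if v % q < (M + 1) % q then 1 else 0 := by
    have h := Nat.count_modEq_card (M + 1) (show 0 < q by omega) v
    rw [Nat.count_eq_card_filter_range] at h
    exact h
  have hc1 := card_le_card hset.1
  have hc2 := (card_le_card hset.2).trans (card_union_le _ _)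
  have hc3 : ({0, 1} : Finset ℕ).card ≤ 2 := card_le_two
  rw [hcount] at hc1 hc2
  have hb1 : (TS X a b).card ≤ (M + 1) / q + 1 := by
    split_ifs at hc1 <;> omega
  have hb2 : (M + 1) / q ≤ (TS X a b).card + 2 := by
    split_ifs at hc2 <;> omega
  have hb1' : ((TS X a b).card : ℝ) ≤ (((M + 1) / q : ℕ) : ℝ) + 1 := by exact_mod_cast hb1
  have hb2' : (((M + 1) / q : ℕ) : ℝ) ≤ ((TS X a b).card : ℝ) + 2 := by exact_mod_cast hb2
  have hd1 : (((M + 1) / q : ℕ) : ℝ) ≤ ((M : ℝ) + 1) / q := by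
    refine Nat.cast_div_le.trans ?_
    push_cast
    rfl
  have hd2 : ((M : ℝ) + 1) / q ≤ (((M + 1) / q : ℕ) : ℝ) + 1 := by
    rw [div_le_iff₀ (by linarith)]
    have := (Nat.lt_mul_div_succ (M + 1) (show 0 < q by omega)).le
    have h' : ((M + 1 : ℕ) : ℝ) ≤ ((q * ((M + 1) / q + 1) : ℕ) : ℝ) := by exact_mod_cast this
    push_cast at h'
    linarith
  have hq1 : ((q - 1 : ℕ) : ℝ) = (q : ℝ) - 1 := by
    rw [Nat.cast_sub (by omega)]; simp
  have hX1 : ((X - 1 : ℕ) : ℝ) = (X : ℝ) - 1 := by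
    rw [Nat.cast_sub (by omega)]; simp
  have hM1 : (M : ℝ) ≤ ((X : ℝ) - 1) / ((q : ℝ) - 1) := by
    rw [hM, ← hq1, ← hX1]
    exact Nat.cast_div_le
  have hM2 : ((X : ℝ) - 1) / ((q : ℝ) - 1) ≤ (M : ℝ) + 1 := by
    rw [div_le_iff₀ (by linarith), ← hq1, ← hX1]
    have := (Nat.lt_mul_div_succ (X - 1) (show 0 < q - 1 by omega)).le
    have h' : ((X - 1 : ℕ) : ℝ) ≤ (((q - 1) * ((X - 1) / (q - 1) + 1) : ℕ) : ℝ) := by exact_mod_cast this
    push_cast at h'
    rw [← hM] at h'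
    linarith
  have hX0 : (1 : ℝ) ≤ X := by exact_mod_cast hX
  have hqq : (0 : ℝ) < (q : ℝ) * ((q : ℝ) - 1) := by nlinarith
  have k1 : ((M : ℝ) + 1) / q ≤ X / ((q : ℝ) * ((q : ℝ) - 1)) + 1 := by
    have : ((M : ℝ) + 1) / q ≤ (((X : ℝ) - 1) / ((q : ℝ) - 1) + 1) / q := by gcongr
    refine this.trans ?_
    rw [div_le_iff₀ (by linarith)]
    have e : (X / ((q : ℝ) * ((q : ℝ) - 1)) + 1) * q = X / ((q : ℝ) - 1) + q := by
      have : (q : ℝ) - 1 ≠ 0 := by linarith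
      field_simp
    rw [e]
    have : ((X : ℝ) - 1) / ((q : ℝ) - 1) ≤ X / ((q : ℝ) - 1) := by
      apply div_le_div_of_nonneg_right _ (by linarith)
      linarith
    linarith
  have k2 : X / ((q : ℝ) * ((q : ℝ) - 1)) - 1 ≤ ((M : ℝ) + 1) / q := by
    have : (((X : ℝ) - 1) / ((q : ℝ) - 1)) / q ≤ ((M : ℝ) + 1) / q := by gcongr
    refine le_trans ?_ this
    have e : (((X : ℝ) - 1) / ((q : ℝ) - 1)) / q = X / ((q : ℝ) * ((q : ℝ) - 1)) - 1 / ((q : ℝ) * ((q : ℝ) - 1)) := by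
      have : (q : ℝ) - 1 ≠ 0 := by linarith
      field_simp
    rw [e]
    have : 1 / ((q : ℝ) * ((q : ℝ) - 1)) ≤ 1 := by
      rw [div_le_one hqq]
      nlinarith
    linarith
  rw [abs_le]
  constructor <;> linarith

/-- the number of `n ≤ X` for one `q` -/
theorem NS_asym (X q : ℕ) (hq : 3 ≤ q) :
    |((NS X q).card : ℝ) - (w q : ℝ) / ((q : ℝ) * ((q : ℝ) - 1)) * X| ≤ 4 * q := by
  rw [NS_card X q hq]
  have e : (w q : ℝ) / ((q : ℝ) * ((q : ℝ) - 1)) * X =
      ∑ p ∈ q.divisorsAntidiagonal.filter (fun p => p.1.Coprime p.2), X / ((q : ℝ) * ((q : ℝ) - 1)) := by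
    rw [sum_const, nsmul_eq_mul]
    unfold w
    ring
  rw [e]
  push_cast
  rw [← sum_sub_distrib]
  refine (abs_sum_le_sum_abs _ _).trans ?_
  have h1 : ∀ p ∈ q.divisorsAntidiagonal.filter (fun p => p.1.Coprime p.2),
      |((TS X p.1 p.2).card : ℝ) - X / ((q : ℝ) * ((q : ℝ) - 1))| ≤ 4 := by
    intro p hp
    rw [mem_filter, Nat.mem_divisorsAntidiagonal] at hp
    have := TS_asym X p.1 p.2 hp.2 (by rw [hp.1.1]; exact hq)
    rwa [hp.1.1] at this
  refine (sum_le_sum h1).trans ?_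
  rw [sum_const, nsmul_eq_mul]
  have h2 := w_le q
  unfold w at h2
  have h3 : (((q.divisorsAntidiagonal.filter (fun p => p.1.Coprime p.2)).card : ℕ) : ℝ) ≤ q := by exact_mod_cast h2
  linarith

/-- the terms of the constant -/
noncomputable def term (q : ℕ) : ℝ := if 3 ≤ q then (w q : ℝ) / ((q : ℝ) * ((q : ℝ) - 1)) else 0

lemma term_nonneg (q : ℕ) : 0 ≤ term q := by
  unfold term
  split_ifs with h
  · have : (3 : ℝ) ≤ q := by exact_mod_cast h
    apply div_nonneg (Nat.cast_nonneg _)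
    nlinarith
  · exact le_rfl

lemma term_tail (Q N : ℕ) (hQ : 1 ≤ Q) :
    ∑ q ∈ Ico Q N, term q ≤ 2 * ((6 + 2 * Real.log Q) / Q) := by
  have h1 : ∀ q ∈ Ico Q N, term q ≤ ∑ p ∈ q.divisorsAntidiagonal, 2 * (((p.1 : ℝ) * p.2) ^ 2)⁻¹ := by
    intro q hq
    unfold term
    split_ifs with h
    · have h3 : (3 : ℝ) ≤ q := by exact_mod_cast h
      have h4 : ∀ p ∈ q.divisorsAntidiagonal, 2 * (((p.1 : ℝ) * p.2) ^ 2)⁻¹ = 2 * ((q : ℝ) ^ 2)⁻¹ := by
        intro p hp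
        rw [Nat.mem_divisorsAntidiagonal] at hp
        rw [← hp.1]
        push_cast
        rfl
      rw [sum_congr rfl h4, sum_const, nsmul_eq_mul]
      have h5 : (w q : ℝ) ≤ (q.divisorsAntidiagonal.card : ℝ) := by
        unfold w
        exact_mod_cast card_filter_le _ _
      have h6 : ((q : ℝ) * ((q : ℝ) - 1))⁻¹ ≤ 2 * ((q : ℝ) ^ 2)⁻¹ := by
        rw [← div_eq_mul_inv, ← one_div, div_le_div_iff₀ (by nlinarith) (by positivity)]
        nlinarith
      rw [div_eq_mul_inv]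
      have h7 : (0 : ℝ) ≤ ((q : ℝ) * ((q : ℝ) - 1))⁻¹ := by
        apply inv_nonneg.2
        nlinarith
      exact mul_le_mul h5 h6 h7 (Nat.cast_nonneg _)
    · positivity
  refine (sum_le_sum h1).trans ?_
  have h2 : ∑ q ∈ Ico Q N, ∑ p ∈ q.divisorsAntidiagonal, 2 * (((p.1 : ℝ) * p.2) ^ 2)⁻¹ ≤
      ∑ p ∈ (Icc 1 N ×ˢ Icc 1 N).filter (fun p : ℕ × ℕ => Q ≤ p.1 * p.2), 2 * (((p.1 : ℝ) * p.2) ^ 2)⁻¹ := by
    have h3 := sum_fiberwise_of_maps_to (s := (Icc 1 N ×ˢ Icc 1 N).filter (fun p : ℕ × ℕ => Q ≤ p.1 * p.2 ∧ p.1 * p.2 < N))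
      (t := Ico Q N) (g := fun p : ℕ × ℕ => p.1 * p.2) (f := fun p : ℕ × ℕ => 2 * (((p.1 : ℝ) * p.2) ^ 2)⁻¹)
      (by
        intro p hp
        rw [mem_filter] at hp
        rw [mem_Ico]
        exact hp.2)
    have h4 : ∀ q ∈ Ico Q N, ∑ p ∈ q.divisorsAntidiagonal, 2 * (((p.1 : ℝ) * p.2) ^ 2)⁻¹ =
        ∑ p ∈ ((Icc 1 N ×ˢ Icc 1 N).filter (fun p : ℕ × ℕ => Q ≤ p.1 * p.2 ∧ p.1 * p.2 < N)).filter
          (fun p : ℕ × ℕ => p.1 * p.2 = q), 2 * (((p.1 : ℝ) * p.2) ^ 2)⁻¹ := by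
      intro q hq
      rw [mem_Ico] at hq
      apply sum_congr _ (fun _ _ => rfl)
      ext p
      rw [Nat.mem_divisorsAntidiagonal, mem_filter, mem_filter, mem_product, mem_Icc, mem_Icc]
      constructor
      · rintro ⟨e, h⟩
        have p1 : 0 < p.1 := Nat.pos_of_ne_zero (by rintro h0; rw [h0] at e; simp at e; omega)
        have p2 : 0 < p.2 := Nat.pos_of_ne_zero (by rintro h0; rw [h0] at e; simp at e; omega)
        have b1 : p.1 ≤ p.1 * p.2 := Nat.le_mul_of_pos_right _ p2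
        have b2 : p.2 ≤ p.1 * p.2 := Nat.le_mul_of_pos_left _ p1
        refine ⟨⟨⟨⟨p1, by omega⟩, p2, by omega⟩, by omega, by omega⟩, e⟩
      · rintro ⟨⟨-, h1, h2⟩, e⟩
        exact ⟨e, by omega⟩
    rw [sum_congr rfl h4, h3]
    apply sum_le_sum_of_subset_of_nonneg
    · intro p hp
      rw [mem_filter] at hp ⊢
      exact ⟨hp.1, hp.2.1⟩
    · intro p _ _
      positivity
  refine h2.trans ?_
  rw [← mul_sum]
  apply mul_le_mul_of_nonneg_left (sum_tail N Q hQ) (by norm_num)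

lemma term_summable : Summable term := by
  apply summable_of_sum_range_le (c := term 0 + 2 * ((6 + 2 * Real.log (1 : ℕ)) / (1 : ℕ))) term_nonneg
  intro n
  have h := term_tail 1 n le_rfl
  have h2 : ∑ i ∈ range n, term i ≤ ∑ i ∈ insert 0 (Ico 1 n), term i := by
    apply sum_le_sum_of_subset_of_nonneg
    · intro i hi
      rw [mem_range] at hi
      rw [mem_insert, mem_Ico]
      omega
    · intro i _ _
      exact term_nonneg i
  rw [sum_insert (by simp)] at h2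
  linarith

lemma term_tsum (Q : ℕ) (hQ : 1 ≤ Q) :
    |∑' q, term q - ∑ q ∈ range Q, term q| ≤ 2 * ((6 + 2 * Real.log Q) / Q) := by
  have h1 := term_summable.sum_add_tsum_nat_add Q
  have h2 : ∑' i, term (i + Q) ≤ 2 * ((6 + 2 * Real.log Q) / Q) := by
    apply Real.tsum_le_of_sum_range_le (fun n => term_nonneg _)
    intro n
    have h3 := term_tail Q (Q + n) hQ
    rw [sum_Ico_eq_sum_range] at h3
    have e : Q + n - Q = n := by omega
    rw [e] at h3
    refine le_trans (le_of_eq ?_) h3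
    apply sum_congr rfl
    intro i _
    rw [add_comm]
  have h3 : 0 ≤ ∑' i, term (i + Q) := tsum_nonneg (fun i => term_nonneg _)
  rw [← h1, add_sub_cancel_left, abs_of_nonneg h3]
  exact h2

lemma PD_split (X Q : ℕ) (hQ : 3 ≤ Q) :
    (PD X 3).card = ∑ q ∈ Ico 3 Q, (NS X q).card + (PD X Q).card := by
  classical
  have h := card_filter_add_card_filter_not (s := PD X 3) (fun p : ℕ × ℕ => p.2 < Q)
  rw [← h]
  congr 1
  · rw [card_eq_sum_card_fiberwise (f := Prod.snd) (t := Ico 3 Q)]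
    · apply sum_congr rfl
      intro q hq
      rw [mem_Ico] at hq
      symm
      apply card_bij (fun n _ => (n, q))
      · intro n hn
        unfold NS at hn
        rw [mem_filter, mem_Icc] at hn
        unfold PD
        rw [mem_filter, mem_filter, mem_filter, mem_product, mem_Icc, mem_Icc]
        refine ⟨⟨⟨⟨hn.1, hq.1, by have := hn.2.1; have := hn.1.2; simp only; omega⟩, hn.2.1, hq.1, hn.2.2⟩, hq.2⟩, rfl⟩
      · intro a _ b _ hab
        exact (Prod.mk.inj hab).1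
      · intro p hp
        unfold PD at hp
        rw [mem_filter, mem_filter, mem_filter, mem_product, mem_Icc, mem_Icc] at hp
        obtain ⟨⟨⟨⟨h1, h2⟩, h3, h4, h5⟩, h6⟩, h7⟩ := hp
        refine ⟨p.1, ?_, Prod.ext rfl h7.symm⟩
        unfold NS
        rw [mem_filter, mem_Icc]
        rw [← h7]
        exact ⟨h1, h3, h5⟩
    · intro p hp
      unfold PD at hp
      rw [mem_coe, mem_filter, mem_filter, mem_product, mem_Icc, mem_Icc] at hp
      rw [mem_coe, mem_Ico]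
      exact ⟨hp.1.1.2.1, hp.2⟩
  · congr 1
    ext p
    unfold PD
    rw [mem_filter, mem_filter, mem_filter, not_lt]
    constructor
    · rintro ⟨⟨h1, h2, h3, h4⟩, h5⟩
      exact ⟨h1, h2, h5, h4⟩
    · rintro ⟨h1, h2, h5, h4⟩
      exact ⟨⟨h1, h2, by omega, h4⟩, h5⟩

/-- the number of pairs -/
theorem PD_asym (X Q : ℕ) (hQ : 3 ≤ Q) :
    |((PD X 3).card : ℝ) - (∑' q, term q) * X| ≤
      4 * (Q : ℝ) ^ 2 + (PD X Q).card + 2 * ((6 + 2 * Real.log Q) / Q) * X := by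
  have h1 : ((PD X 3).card : ℝ) = ∑ q ∈ Ico 3 Q, ((NS X q).card : ℝ) + (PD X Q).card := by
    rw [PD_split X Q hQ]
    push_cast
    rfl
  have h2 : ∑ q ∈ range Q, term q = ∑ q ∈ Ico 3 Q, (w q : ℝ) / ((q : ℝ) * ((q : ℝ) - 1)) := by
    rw [← sum_range_add_sum_Ico term hQ]
    have h0 : ∑ q ∈ range 3, term q = 0 := by
      apply sum_eq_zero
      intro q hq
      rw [mem_range] at hq
      unfold term
      rw [if_neg (by omega)]
    rw [h0, zero_add]
    apply sum_congr rfl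
    intro q hq
    rw [mem_Ico] at hq
    unfold term
    rw [if_pos hq.1]
  have h3 := term_tsum Q (by omega)
  have h4 : |∑ q ∈ Ico 3 Q, ((NS X q).card : ℝ) - (∑ q ∈ range Q, term q) * X| ≤ 4 * (Q : ℝ) ^ 2 := by
    rw [h2, sum_mul, ← sum_sub_distrib]
    refine (abs_sum_le_sum_abs _ _).trans ?_
    have h5 : ∀ q ∈ Ico 3 Q, |((NS X q).card : ℝ) - (w q : ℝ) / ((q : ℝ) * ((q : ℝ) - 1)) * X| ≤ 4 * Q := by
      intro q hq
      rw [mem_Ico] at hq
      refine (NS_asym X q hq.1).trans ?_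
      have : (q : ℝ) ≤ Q := by exact_mod_cast hq.2.le
      linarith
    refine (sum_le_sum h5).trans ?_
    rw [sum_const, nsmul_eq_mul, Nat.card_Ico]
    have h6 : ((Q - 3 : ℕ) : ℝ) ≤ Q := by exact_mod_cast Nat.sub_le Q 3
    have h7 : (0 : ℝ) ≤ Q := Nat.cast_nonneg Q
    nlinarith
  have e : ((PD X 3).card : ℝ) - (∑' q, term q) * X =
      (∑ q ∈ Ico 3 Q, ((NS X q).card : ℝ) - (∑ q ∈ range Q, term q) * X) + (PD X Q).card -
        (∑' q, term q - ∑ q ∈ range Q, term q) * X := by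
    rw [h1]; ring
  rw [e]
  have h8 : |(∑' q, term q - ∑ q ∈ range Q, term q) * X| ≤ 2 * ((6 + 2 * Real.log Q) / Q) * X := by
    rw [abs_mul, abs_of_nonneg (Nat.cast_nonneg X : (0 : ℝ) ≤ (X : ℝ))]
    exact mul_le_mul_of_nonneg_right h3 (Nat.cast_nonneg X)
  have h9 : (0 : ℝ) ≤ (PD X Q).card := Nat.cast_nonneg _
  rw [abs_le] at h4 h8 ⊢
  constructor <;> linarith [h4.1, h4.2, h8.1, h8.2]

end Pool.Agent.N696.SA
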