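import Pool.Agent.N696.SA.Main

set_option autoImplicit false

/-!
# The density of the orders is at least one half
-/

open Finset Filter Topology

namespace Pool.Agent.N696.SA

/-- the union for `q = 3, 4, 5, 6` -/
def H (m : ℕ) : Bool := decide (m % 2 = 0 ∧ ((m + 1) * m) % 6 = 0) || decide (m % 3 = 0 ∧ ((m + 1) * m) % 12 = 0) ||
  decide (m % 4 = 0 ∧ ((m + 1) * m) % 20 = 0) || decide (m % 5 = 0 ∧ ((m + 1) * m) % 30 = 0)

lemma H_P {m : ℕ} (h : H m = true) : P 7 m := by
  unfold H at h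
  simp only [Bool.or_eq_true, decide_eq_true_eq] at h
  unfold P R
  rcases h with ((h | h) | h) | h
  · exact ⟨3, by norm_num, by norm_num, Nat.dvd_of_mod_eq_zero h.1, Nat.dvd_of_mod_eq_zero h.2⟩
  · exact ⟨4, by norm_num, by norm_num, Nat.dvd_of_mod_eq_zero h.1, Nat.dvd_of_mod_eq_zero h.2⟩
  · exact ⟨5, by norm_num, by norm_num, Nat.dvd_of_mod_eq_zero h.1, Nat.dvd_of_mod_eq_zero h.2⟩
  · exact ⟨6, by norm_num, by norm_num, Nat.dvd_of_mod_eq_zero h.1, Nat.dvd_of_mod_eq_zero h.2⟩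

lemma H_count : ((List.range 5040).countP H) = 2520 := by decide +kernel

lemma half_le_dens : 1 / 2 ≤ dens := by
  classical
  have h1 : gd 7 ≤ dens := le_ciSup (f := gd) ⟨1, by rintro _ ⟨Q, rfl⟩; exact gd_le_one Q⟩ 7
  refine le_trans ?_ h1
  have h2 : 2520 ≤ cP 7 5040 := by
    rw [← H_count]
    unfold cP Nat.count
    apply List.countP_mono_left
    intro m _ hm
    exact decide_eq_true (H_P hm)
  unfold gd
  have e : Nat.factorial 7 = 5040 := by decide
  rw [e, le_div_iff₀ (by norm_num)]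
  have h3 : ((2520 : ℕ) : ℝ) ≤ cP 7 5040 := by exact_mod_cast h2
  push_cast at h3 ⊢
  linarith

lemma dens_le_one : dens ≤ 1 := ciSup_le gd_le_one

end Pool.Agent.N696.SA
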