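import Pool.Agent.N696.SA.Dens
import Pool.Agent.H108R2.Bound3

set_option autoImplicit false

/-!
# Almost all pairs which satisfy the divisibility conditions carry an `S(n,q,2)`
-/

open Finset Filter Topology

namespace Pool.Agent.N696.SA

/-- an `S(n,q,2)` exists -/
def S2 (n q : ℕ) : Prop := ∃ B : Finset (Finset (Fin n)), (∀ b ∈ B, b.card = q) ∧
  ∀ T : Finset (Fin n), T.card = 2 → ∃! b, b ∈ B ∧ T ⊆ b

lemma S2_D {n q : ℕ} (hn : 0 < n) (h : S2 n q) : D n q := by
  obtain ⟨B, h1, h2⟩ := h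
  intro i hi
  interval_cases i
  · exact H108.necessary_zero h1 h2
  · simpa using H108.necessary_one hn h1 h2

lemma S2_self (n : ℕ) : S2 n n := by
  refine ⟨{univ}, ?_, ?_⟩
  · intro b hb
    rw [mem_singleton] at hb
    rw [hb, card_univ, Fintype.card_fin]
  · intro T _
    refine ⟨univ, ⟨mem_singleton_self _, subset_univ _⟩, ?_⟩
    rintro b ⟨hb, -⟩
    exact mem_singleton.1 hb

lemma S2_of_large {n q : ℕ} (hq : 2 ≤ q) (hn : 0 < n) (h : 3 ≤ q → q ^ (10 ^ 7 * q) ≤ n) (hD : D n q) :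
    S2 n q :=
  (H108.steiner_iff hq hn (fun h3 hA => H108.main3 h3 hA (h h3))).2 hD

open Classical in
/-- the pairs with no `S(n,q,2)` though the divisibility conditions hold -/
noncomputable def UN (X : ℕ) : Finset (ℕ × ℕ) :=
  (Icc 1 X ×ˢ Icc 2 X).filter (fun p => p.2 ≤ p.1 ∧ D p.1 p.2 ∧ ¬ S2 p.1 p.2)

open Classical in
/-- the nontrivial pairs with an `S(n,q,2)` -/
noncomputable def EX (X : ℕ) : Finset (ℕ × ℕ) :=
  (Icc 1 X ×ˢ Icc 3 X).filter (fun p => p.2 < p.1 ∧ S2 p.1 p.2)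

open Classical in
/-- the orders of the nontrivial `S(n,q,2)` -/
noncomputable def EN (X : ℕ) : Finset ℕ :=
  (Icc 1 X).filter (fun n => ∃ q, 3 ≤ q ∧ q < n ∧ S2 n q)

/-- the logarithm of the logarithm -/
noncomputable def ll (X : ℕ) : ℝ := Real.log (Real.log X)

/-- the small blocks: below `Q X` -/
noncomputable def QQ (X : ℕ) : ℕ := max 3 (⌊Real.log X / (2 * 10 ^ 7 * ll X)⌋₊ + 1)

lemma log_ge {X : ℕ} (hX : 16 ≤ X) : Real.exp 1 ≤ Real.log X := by
  have h1 : Real.log 16 ≤ Real.log X := Real.log_le_log (by norm_num) (by exact_mod_cast hX)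
  have h2 : Real.log 16 = 4 * Real.log 2 := by
    rw [show (16 : ℝ) = 2 ^ 4 by norm_num, Real.log_pow]; norm_num
  have h3 := Real.log_two_gt_d9
  have h4 := Real.exp_one_lt_d9
  linarith

lemma ll_ge {X : ℕ} (hX : 16 ≤ X) : 1 ≤ ll X := by
  unfold ll
  rw [Real.le_log_iff_exp_le]
  · exact log_ge hX
  · exact lt_of_lt_of_le (Real.exp_pos 1) (log_ge hX)

lemma small_q {X q : ℕ} (hX : 16 ≤ X) (hq : 3 ≤ q) (hqQ : q < QQ X) :
    ((q : ℝ) ≤ Real.log X / (2 * 10 ^ 7 * ll X)) ∧ ((q : ℝ) ^ (10 ^ 7 * q)) ≤ Real.sqrt X := by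
  have hL := log_ge hX
  have hl := ll_ge hX
  have he := Real.exp_one_gt_d9
  have hX0 : (0 : ℝ) < X := by
    have : (16 : ℝ) ≤ X := by exact_mod_cast hX
    linarith
  have hL0 : 0 < Real.log X := by linarith
  have h1 : (q : ℝ) ≤ Real.log X / (2 * 10 ^ 7 * ll X) := by
    unfold QQ at hqQ
    rw [lt_max_iff] at hqQ
    rcases hqQ with h | h
    · omega
    · have h2 : q ≤ ⌊Real.log X / (2 * 10 ^ 7 * ll X)⌋₊ := by omega
      exact (Nat.le_floor_iff (by positivity)).1 h2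
  refine ⟨h1, ?_⟩
  have hq0 : (0 : ℝ) < q := by
    have : (3 : ℝ) ≤ q := by exact_mod_cast hq
    linarith
  have h3 : (q : ℝ) ≤ Real.log X := by
    refine h1.trans ?_
    apply div_le_self hL0.le
    nlinarith
  have h4 : Real.log q ≤ ll X := Real.log_le_log hq0 h3
  have h5 : 0 ≤ Real.log q := by
    apply Real.log_nonneg
    have : (3 : ℝ) ≤ q := by exact_mod_cast hq
    linarith
  rw [← Real.log_le_log_iff (by positivity) (Real.sqrt_pos.2 hX0), Real.log_pow, Real.log_sqrt hX0.le]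
  push_cast
  rw [le_div_iff₀ (by positivity)] at h1
  have h6 : (q : ℝ) * Real.log q ≤ q * ll X := mul_le_mul_of_nonneg_left h4 hq0.le
  nlinarith

lemma QQ_three (X : ℕ) : 3 ≤ QQ X := le_max_left _ _

lemma QQ_le {X : ℕ} (hX : 16 ≤ X) : (QQ X : ℝ) ≤ Real.log X + 1 := by
  have hL := log_ge hX
  have hl := ll_ge hX
  have he := Real.exp_one_gt_d9
  have hL0 : 0 < Real.log X := by linarith
  unfold QQ
  push_cast
  apply max_le
  · linarith
  · have h1 : (⌊Real.log X / (2 * 10 ^ 7 * ll X)⌋₊ : ℝ) ≤ Real.log X / (2 * 10 ^ 7 * ll X) :=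
      Nat.floor_le (by positivity)
    have h2 : Real.log X / (2 * 10 ^ 7 * ll X) ≤ Real.log X := by
      apply div_le_self hL0.le
      nlinarith
    linarith

lemma QQ_ge {X : ℕ} : Real.log X / (2 * 10 ^ 7 * ll X) ≤ (QQ X : ℝ) := by
  unfold QQ
  push_cast
  exact (Nat.lt_floor_add_one _).le.trans (le_max_right _ _)

lemma tau_QQ {X : ℕ} (hX : 16 ≤ X) : tau (QQ X) ≤ 2 * 10 ^ 8 * (ll X ^ 2 / Real.log X) := by
  have hL := log_ge hX
  have hl := ll_ge hX
  have he := Real.exp_one_gt_d9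
  have hL0 : 0 < Real.log X := by linarith
  have h1 := QQ_ge (X := X)
  have h2 := QQ_le hX
  have h3 : (3 : ℝ) ≤ QQ X := by exact_mod_cast QQ_three X
  have h4 : Real.log (QQ X) ≤ 2 * ll X := by
    have h5 : (QQ X : ℝ) ≤ Real.log X * 2 := by linarith
    have h6 := Real.log_le_log (by linarith) h5
    rw [Real.log_mul (by positivity) (by norm_num)] at h6
    have h7 := Real.log_two_lt_d9
    have h8 : Real.log (Real.log X) = ll X := rfl
    rw [h8] at h6
    linarith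
  unfold tau
  have hpos : 0 < Real.log X / (2 * 10 ^ 7 * ll X) := by positivity
  calc (6 + 2 * Real.log (QQ X)) / (QQ X) ≤ (10 * ll X) / (QQ X) := by
        apply div_le_div_of_nonneg_right _ (by linarith)
        linarith
    _ ≤ (10 * ll X) / (Real.log X / (2 * 10 ^ 7 * ll X)) := by
        apply div_le_div_of_nonneg_left (by linarith) hpos h1
    _ = _ := by
        field_simp

/-- the error term -/
noncomputable def Er (X : ℕ) : ℝ := X * ll X ^ 2 / Real.log X

lemma Er_basic {X : ℕ} (hX : 16 ≤ X) :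
    (X : ℝ) / Real.log X ≤ Er X ∧ Real.log X ^ 2 ≤ 27 * Er X ∧ Real.sqrt X ≤ 2 * Er X ∧
      Real.log X * Real.sqrt X ≤ 16 * Er X ∧ 1 ≤ Er X := by
  have hL := log_ge hX
  have hl := ll_ge hX
  have he := Real.exp_one_gt_d9
  have hL0 : 0 < Real.log X := by linarith
  have hX16 : (16 : ℝ) ≤ X := by exact_mod_cast hX
  have hX0 : (0 : ℝ) < X := by linarith
  have h1 : (X : ℝ) / Real.log X ≤ Er X := by
    unfold Er
    apply div_le_div_of_nonneg_right _ hL0.le
    have : (1 : ℝ) ≤ ll X ^ 2 := one_le_pow₀ hl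
    nlinarith
  -- powers
  have key : ∀ k : ℕ, 1 ≤ k → Real.log X ≤ k * (X : ℝ) ^ ((1 : ℝ) / k) := by
    intro k hk
    have hk0 : (0 : ℝ) < k := by exact_mod_cast hk
    have h := Real.log_le_sub_one_of_pos (Real.rpow_pos_of_pos hX0 ((1 : ℝ) / k))
    rw [Real.log_rpow hX0] at h
    have h2 : Real.log X = k * (1 / k * Real.log X) := by field_simp
    rw [h2]
    apply mul_le_mul_of_nonneg_left _ hk0.le
    linarith
  have hpow : ∀ k : ℕ, 1 ≤ k → ((X : ℝ) ^ ((1 : ℝ) / k)) ^ k = X := by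
    intro k hk
    have hk0 : (k : ℝ) ≠ 0 := by
      have : (0 : ℝ) < k := by exact_mod_cast hk
      exact this.ne'
    rw [← Real.rpow_natCast, ← Real.rpow_mul hX0.le]
    rw [one_div, inv_mul_cancel₀ hk0, Real.rpow_one]
  have c3 : Real.log X ^ 3 ≤ 27 * X := by
    have h := pow_le_pow_left₀ hL0.le (key 3 (by norm_num)) 3
    rw [mul_pow, hpow 3 (by norm_num)] at h
    norm_num at h ⊢
    exact h
  have c2 : Real.log X ^ 2 ≤ 4 * X := by
    have h := pow_le_pow_left₀ hL0.le (key 2 (by norm_num)) 2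
    rw [mul_pow, hpow 2 (by norm_num)] at h
    norm_num at h ⊢
    exact h
  have c4 : Real.log X ^ 4 ≤ 256 * X := by
    have h := pow_le_pow_left₀ hL0.le (key 4 (by norm_num)) 4
    rw [mul_pow, hpow 4 (by norm_num)] at h
    norm_num at h ⊢
    exact h
  have s0 : Real.sqrt X ^ 2 = X := Real.sq_sqrt hX0.le
  have s1 : 0 < Real.sqrt X := Real.sqrt_pos.2 hX0
  have d2 : Real.log X ≤ 2 * Real.sqrt X := by
    apply abs_le_of_sq_le_sq' _ (by positivity) |>.2
    nlinarith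
  have d4 : Real.log X ^ 2 ≤ 16 * Real.sqrt X := by
    apply abs_le_of_sq_le_sq' _ (by positivity) |>.2
    nlinarith
  refine ⟨h1, ?_, ?_, ?_, ?_⟩
  · have : Real.log X ^ 2 ≤ 27 * (X / Real.log X) := by
      rw [← mul_div_assoc, le_div_iff₀ hL0]
      calc _ = Real.log X ^ 3 := by ring
        _ ≤ _ := c3
    linarith
  · have : Real.sqrt X ≤ 2 * (X / Real.log X) := by
      rw [← mul_div_assoc, le_div_iff₀ hL0]
      nlinarith
    linarith
  · have : Real.log X * Real.sqrt X ≤ 16 * (X / Real.log X) := by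
      rw [← mul_div_assoc, le_div_iff₀ hL0]
      nlinarith
    linarith
  · have : 1 ≤ X / Real.log X := by
      rw [le_div_iff₀ hL0]
      have := Real.log_le_sub_one_of_pos hX0
      linarith
    linarith

lemma Er_eq (X : ℕ) : X * (ll X ^ 2 / Real.log X) = Er X := by
  unfold Er; ring

lemma PD_large {X : ℕ} (hX : 16 ≤ X) : ((PD X (QQ X)).card : ℝ) ≤ (4 * 10 ^ 8 + 224) * Er X := by
  have hL := log_ge hX
  have hl := ll_ge hX
  have he := Real.exp_one_gt_d9
  have hL0 : 0 < Real.log X := by linarith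
  have hX16 : (16 : ℝ) ≤ X := by exact_mod_cast hX
  have hX0 : (0 : ℝ) < X := by linarith
  obtain ⟨b1, b2, b3, b4, b5⟩ := Er_basic hX
  have hA1 : 1 ≤ ⌈Real.log X⌉₊ := Nat.one_le_iff_ne_zero.2 (by
    intro h0
    rw [Nat.ceil_eq_zero] at h0
    linarith)
  have h := PD_card X (QQ X) ⌈Real.log X⌉₊ (by have := QQ_three X; omega) hA1
  have hc1 : Real.log X ≤ (⌈Real.log X⌉₊ : ℝ) := Nat.le_ceil _
  have hc2 : (⌈Real.log X⌉₊ : ℝ) ≤ 2 * Real.log X := by
    have := (Nat.ceil_lt_add_one hL0.le).le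
    linarith
  have h1 := tau_QQ hX
  unfold tau at h1
  have h2 : 2 * (X : ℝ) * ((6 + 2 * Real.log (QQ X)) / (QQ X)) ≤ 4 * 10 ^ 8 * Er X := by
    calc _ ≤ 2 * (X : ℝ) * (2 * 10 ^ 8 * (ll X ^ 2 / Real.log X)) :=
          mul_le_mul_of_nonneg_left h1 (by positivity)
      _ = _ := by rw [← Er_eq]; ring
  have h3 : 2 * (⌈Real.log X⌉₊ : ℝ) ^ 2 ≤ 8 * Real.log X ^ 2 := by nlinarith
  have h4 : 8 * (X : ℝ) / ⌈Real.log X⌉₊ ≤ 8 * Er X := by
    calc 8 * (X : ℝ) / ⌈Real.log X⌉₊ ≤ 8 * (X : ℝ) / Real.log X :=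
          div_le_div_of_nonneg_left (by positivity) hL0 hc1
      _ = 8 * (X / Real.log X) := by ring
      _ ≤ _ := by linarith
  linarith

lemma PD_sqrt (X : ℕ) (hX : 16 ≤ X) : ((PD (Nat.sqrt X) 3).card : ℝ) ≤ 32 * Er X := by
  obtain ⟨b1, b2, b3, b4, b5⟩ := Er_basic hX
  have h := PD_card (Nat.sqrt X) 3 1 (by norm_num) le_rfl
  have h1 : ((Nat.sqrt X : ℕ) : ℝ) ≤ Real.sqrt X := Real.nat_sqrt_le_real_sqrt
  have h2 : Real.log ((3 : ℕ) : ℝ) ≤ 3 / 2 := by
    have e : ((3 : ℕ) : ℝ) = 2 * (3 / 2) := by norm_num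
    rw [e, Real.log_mul (by norm_num) (by norm_num)]
    have := Real.log_two_lt_d9
    have h3 := Real.log_le_sub_one_of_pos (show (0 : ℝ) < 3 / 2 by norm_num)
    linarith
  have h3 : (6 + 2 * Real.log ((3 : ℕ) : ℝ)) / ((3 : ℕ) : ℝ) ≤ 3 := by
    push_cast at h2 ⊢
    rw [div_le_iff₀ (by norm_num)]
    linarith
  have h0 : (0 : ℝ) ≤ (Nat.sqrt X : ℕ) := Nat.cast_nonneg _
  have h4 : 2 * ((Nat.sqrt X : ℕ) : ℝ) * ((6 + 2 * Real.log ((3 : ℕ) : ℝ)) / ((3 : ℕ) : ℝ)) ≤
      2 * ((Nat.sqrt X : ℕ) : ℝ) * 3 := mul_le_mul_of_nonneg_left h3 (by linarith)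
  have h5 : (2 * ((1 : ℕ) : ℝ) ^ 2 + 8 * ((Nat.sqrt X : ℕ) : ℝ) / ((1 : ℕ) : ℝ)) = 2 + 8 * ((Nat.sqrt X : ℕ) : ℝ) := by
    norm_num
  rw [h5] at h
  linarith

open Classical in
lemma UN_sub {X : ℕ} (hX : 16 ≤ X) : UN X ⊆ PD X (QQ X) ∪ PD (Nat.sqrt X) 3 := by
  intro p hp
  unfold UN at hp
  rw [mem_filter, mem_product, mem_Icc, mem_Icc] at hp
  obtain ⟨⟨⟨h1, h2⟩, h3, h4⟩, h5, h6, h7⟩ := hp
  have hne : p.2 ≠ p.1 := by
    intro h
    apply h7
    rw [h]
    exact S2_self _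
  have h3' : 3 ≤ p.2 := by
    by_contra hcon
    apply h7
    apply S2_of_large (by omega) (by omega) _ h6
    intro h; omega
  rw [mem_union]
  rcases Nat.lt_or_ge p.2 (QQ X) with h | h
  · right
    unfold PD
    rw [mem_filter, mem_product, mem_Icc, mem_Icc]
    have h8 : p.1 ≤ Nat.sqrt X := by
      by_contra hcon
      push Not at hcon
      apply h7
      apply S2_of_large (by omega) (by omega) _ h6
      intro _
      obtain ⟨-, h9⟩ := small_q hX h3' h
      have h10 : Real.sqrt X < p.1 := by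
        rw [Real.sqrt_lt' (by exact_mod_cast (show 0 < p.1 by omega))]
        have := Nat.sqrt_lt'.1 hcon
        exact_mod_cast this
      have h11 : ((p.2 : ℝ) ^ (10 ^ 7 * p.2)) ≤ p.1 := h9.trans h10.le
      exact_mod_cast h11
    exact ⟨⟨⟨h1, h8⟩, h3', by omega⟩, by omega, h3', h6⟩
  · left
    unfold PD
    rw [mem_filter, mem_product, mem_Icc, mem_Icc]
    exact ⟨⟨⟨h1, h2⟩, h3', h4⟩, by omega, h, h6⟩

/-- the unrealised pairs -/
theorem UN_card {X : ℕ} (hX : 16 ≤ X) : ((UN X).card : ℝ) ≤ (4 * 10 ^ 8 + 256) * Er X := by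
  classical
  have h1 : (UN X).card ≤ (PD X (QQ X)).card + (PD (Nat.sqrt X) 3).card :=
    (card_le_card (UN_sub hX)).trans (card_union_le _ _)
  have h2 : ((UN X).card : ℝ) ≤ (PD X (QQ X)).card + (PD (Nat.sqrt X) 3).card := by exact_mod_cast h1
  have h3 := PD_large hX
  have h4 := PD_sqrt X hX
  linarith

/-- the realised pairs -/
theorem EX_card {X : ℕ} (hX : 16 ≤ X) :
    |((EX X).card : ℝ) - (∑' q, term q) * X| ≤ 2 * 10 ^ 9 * Er X := by
  classical
  have hL := log_ge hX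
  have he := Real.exp_one_gt_d9
  obtain ⟨b1, b2, b3, b4, b5⟩ := Er_basic hX
  have h1 : (EX X).card ≤ (PD X 3).card := by
    apply card_le_card
    intro p hp
    unfold EX at hp
    unfold PD
    rw [mem_filter, mem_product, mem_Icc, mem_Icc] at hp ⊢
    exact ⟨hp.1, hp.2.1, hp.1.2.1, S2_D (by omega) hp.2.2⟩
  have h2 : (PD X 3).card ≤ (EX X).card + (UN X).card := by
    refine le_trans (card_le_card ?_) (card_union_le _ _)
    intro p hp
    unfold PD at hp
    unfold EX UN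
    rw [mem_filter, mem_product, mem_Icc, mem_Icc] at hp
    rw [mem_union, mem_filter, mem_filter, mem_product, mem_Icc, mem_Icc, mem_product, mem_Icc, mem_Icc]
    obtain ⟨⟨⟨h1, h2⟩, h3, h4⟩, h5, h6, h7⟩ := hp
    by_cases hS : S2 p.1 p.2
    · left
      exact ⟨⟨⟨h1, h2⟩, h3, h4⟩, h5, hS⟩
    · right
      exact ⟨⟨⟨h1, h2⟩, by omega, h4⟩, h5.le, h7, hS⟩
  have h1' : ((EX X).card : ℝ) ≤ (PD X 3).card := by exact_mod_cast h1
  have h2' : ((PD X 3).card : ℝ) ≤ (EX X).card + (UN X).card := by exact_mod_cast h2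
  have h3 := PD_asym X (QQ X) (QQ_three X)
  have h4 := PD_large hX
  have h5 := UN_card hX
  have h6 := tau_QQ hX
  unfold tau at h6
  have h7 : 2 * ((6 + 2 * Real.log (QQ X)) / (QQ X)) * X ≤ 4 * 10 ^ 8 * Er X := by
    calc _ = 2 * (X : ℝ) * ((6 + 2 * Real.log (QQ X)) / (QQ X)) := by ring
      _ ≤ 2 * (X : ℝ) * (2 * 10 ^ 8 * (ll X ^ 2 / Real.log X)) :=
          mul_le_mul_of_nonneg_left h6 (by positivity)
      _ = _ := by rw [← Er_eq]; ring
  have h8 : 4 * (QQ X : ℝ) ^ 2 ≤ 16 * Real.log X ^ 2 := by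
    have h9 := QQ_le hX
    have h10 : (0 : ℝ) ≤ QQ X := Nat.cast_nonneg _
    have h11 : (QQ X : ℝ) ≤ 2 * Real.log X := by linarith
    nlinarith
  rw [abs_le] at h3 ⊢
  constructor <;> linarith [h3.1, h3.2]

lemma fact_QQ {X : ℕ} (hX : 16 ≤ X) : ((QQ X).factorial : ℝ) ≤ 38 * Er X := by
  have hL := log_ge hX
  have he := Real.exp_one_gt_d9
  obtain ⟨b1, b2, b3, b4, b5⟩ := Er_basic hX
  have h3 := QQ_three X
  rcases Nat.eq_or_lt_of_le h3 with h | h
  · rw [← h]
    norm_num [Nat.factorial]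
    linarith
  · obtain ⟨k, hk⟩ : ∃ k, QQ X = k + 1 := ⟨QQ X - 1, by omega⟩
    obtain ⟨-, h4⟩ := small_q hX (show 3 ≤ k by omega) (by omega)
    have h5 : (k.factorial : ℝ) ≤ (k : ℝ) ^ (10 ^ 7 * k) := by
      have h6 : k.factorial ≤ k ^ k := Nat.factorial_le_pow k
      have h7 : k ^ k ≤ k ^ (10 ^ 7 * k) := Nat.pow_le_pow_right (by omega) (by omega)
      exact_mod_cast h6.trans h7
    have h6 := QQ_le hX
    rw [hk] at h6
    rw [hk, Nat.factorial_succ]
    push_cast at h6 ⊢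
    have h7 : (k : ℝ) + 1 ≤ 2 * Real.log X := by linarith
    have h8 : ((k : ℝ) + 1) * (k.factorial : ℝ) ≤ (2 * Real.log X) * Real.sqrt X :=
      mul_le_mul h7 (h5.trans h4) (Nat.cast_nonneg _) (by linarith)
    linarith

/-- the orders -/
theorem EN_card {X : ℕ} (hX : 16 ≤ X) :
    |((EN X).card : ℝ) - dens * X| ≤ 2 * 10 ^ 9 * Er X := by
  classical
  have hL := log_ge hX
  have he := Real.exp_one_gt_d9
  obtain ⟨b1, b2, b3, b4, b5⟩ := Er_basic hX
  have hcP : cP (QQ X) X = ((range X).filter (P (QQ X))).card := by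
    unfold cP; rw [Nat.count_eq_card_filter_range]
  have h1 : (EN X).card ≤ cP (QQ X) X + (PD X (QQ X)).card := by
    rw [hcP]
    have hs : EN X ⊆ ((range X).filter (P (QQ X))).image (fun m => m + 1) ∪ (PD X (QQ X)).image Prod.fst := by
      intro n hn
      unfold EN at hn
      rw [mem_filter, mem_Icc] at hn
      obtain ⟨⟨h1, h2⟩, q, h3, h4, h5⟩ := hn
      have hD := S2_D (by omega) h5
      rw [mem_union, mem_image, mem_image]
      rcases Nat.lt_or_ge q (QQ X) with h | h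
      · left
        refine ⟨n - 1, ?_, by omega⟩
        rw [mem_filter, mem_range]
        refine ⟨by omega, q, h3, h, ?_⟩
        rw [← D_iff_R, Nat.sub_add_cancel h1]
        exact hD
      · right
        refine ⟨(n, q), ?_, rfl⟩
        unfold PD
        rw [mem_filter, mem_product, mem_Icc, mem_Icc]
        exact ⟨⟨⟨h1, h2⟩, h3, by simp only; omega⟩, h4, h, hD⟩
    refine (card_le_card hs).trans ((card_union_le _ _).trans ?_)
    exact Nat.add_le_add card_image_le card_image_le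
  have h2 : cP (QQ X) X ≤ (EN X).card + (QQ X + (UN X).card) := by
    rw [hcP]
    have hs : (range X).filter (P (QQ X)) ⊆ (EN X).image (fun n => n - 1) ∪
        (range (QQ X) ∪ (UN X).image (fun p => p.1 - 1)) := by
      intro m hm
      rw [mem_filter, mem_range] at hm
      obtain ⟨hm, q, h1, h2, h3⟩ := hm
      rw [mem_union, mem_union, mem_image, mem_image, mem_range]
      rw [← D_iff_R] at h3
      rcases Nat.lt_or_ge q (m + 1) with h | h
      · by_cases hS : S2 (m + 1) q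
        · left
          refine ⟨m + 1, ?_, by omega⟩
          unfold EN
          rw [mem_filter, mem_Icc]
          exact ⟨⟨by omega, by omega⟩, q, h1, h, hS⟩
        · right; right
          refine ⟨(m + 1, q), ?_, by simp⟩
          unfold UN
          rw [mem_filter, mem_product, mem_Icc, mem_Icc]
          exact ⟨⟨⟨by simp only; omega, by simp only; omega⟩, by simp only; omega, by simp only; omega⟩,
            by simp only; omega, h3, hS⟩
      · right; left
        omega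
    refine (card_le_card hs).trans ((card_union_le _ _).trans ?_)
    refine Nat.add_le_add card_image_le ((card_union_le _ _).trans ?_)
    rw [card_range]
    exact Nat.add_le_add_left card_image_le _
  have h1' : ((EN X).card : ℝ) ≤ cP (QQ X) X + (PD X (QQ X)).card := by exact_mod_cast h1
  have h2' : (cP (QQ X) X : ℝ) ≤ (EN X).card + (QQ X + (UN X).card) := by exact_mod_cast h2
  have h3 := cP_asym (QQ X) X
  have h4 := PD_large hX
  have h5 := UN_card hX
  have h6 := tau_QQ hX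
  have h7 := dens_near (QQ X) (by have := QQ_three X; omega)
  have h8 := fact_QQ hX
  have h9 := QQ_le hX
  have h10 : |(gd (QQ X) - dens) * X| ≤ 4 * 10 ^ 8 * Er X := by
    rw [abs_mul, abs_of_nonneg (Nat.cast_nonneg X : (0 : ℝ) ≤ (X : ℝ))]
    calc |gd (QQ X) - dens| * X ≤ (2 * tau (QQ X)) * X := mul_le_mul_of_nonneg_right h7 (Nat.cast_nonneg X)
      _ ≤ (2 * (2 * 10 ^ 8 * (ll X ^ 2 / Real.log X))) * X := by
          apply mul_le_mul_of_nonneg_right _ (Nat.cast_nonneg X)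
          linarith
      _ = _ := by rw [← Er_eq]; ring
  have h11 : (QQ X : ℝ) ≤ 54 * Er X := by
    have : Real.log X ≤ Real.log X ^ 2 := by nlinarith
    linarith
  have e : ((EN X).card : ℝ) - dens * X = ((EN X).card - cP (QQ X) X) + (cP (QQ X) X - gd (QQ X) * X) +
      (gd (QQ X) - dens) * X := by ring
  rw [e]
  rw [abs_le] at h3 h10 ⊢
  constructor <;> linarith [h3.1, h3.2, h10.1, h10.2]

end Pool.Agent.N696.SA
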