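import Pool.Agent.N696.SA.Count

set_option autoImplicit false

/-!
# The pairs `(n,q)` which satisfy the divisibility conditions for `S(n,q,2)`
-/

open Finset

namespace Pool.Agent.N696.SA

/-- the divisibility conditions for `S(n,q,2)` -/
def D (n q : ℕ) : Prop := ∀ i < 2, (q - i).choose (2 - i) ∣ (n - i).choose (2 - i)

lemma D_iff {n q : ℕ} (hq : 2 ≤ q) (hn : 1 ≤ n) :
    D n q ↔ ∃ t, n = (q - 1) * t + 1 ∧ q ∣ t * (t - 1) := by
  have two (m : ℕ) : 2 * m.choose 2 = m * (m - 1) := by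
    rw [Nat.choose_two_right, Nat.mul_div_cancel']
    rcases m with _ | m
    · simp
    · rw [Nat.add_sub_cancel, mul_comm]
      exact (Nat.even_mul_succ_self m).two_dvd
  have h0 : D n q ↔ q * (q - 1) ∣ n * (n - 1) ∧ (q - 1) ∣ (n - 1) := by
    unfold D
    constructor
    · intro h
      refine ⟨?_, ?_⟩
      · have := h 0 (by norm_num)
        simp only [Nat.sub_zero] at this
        rw [← two, ← two]
        exact Nat.mul_dvd_mul_left 2 this
      · have := h 1 (by norm_num)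
        simpa using this
    · rintro ⟨h1, h2⟩ i hi
      interval_cases i
      · simp only [Nat.sub_zero]
        rw [← two, ← two] at h1
        exact Nat.dvd_of_mul_dvd_mul_left (by norm_num) h1
      · simpa using h2
  have main : ∀ t, 1 ≤ t → n = (q - 1) * t + 1 → (q * (q - 1) ∣ n * (n - 1) ↔ q ∣ t * (t - 1)) := by
    intro t ht hn
    obtain ⟨m, rfl⟩ : ∃ m, q = m + 1 := ⟨q - 1, by omega⟩
    obtain ⟨s, rfl⟩ : ∃ s, t = s + 1 := ⟨t - 1, by omega⟩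
    simp only [Nat.add_sub_cancel] at hn ⊢
    have e : n * (n - 1) = ((m * (s + 1) + 1) * (s + 1)) * m := by
      rw [hn, Nat.add_sub_cancel]; ring
    rw [e, Nat.mul_dvd_mul_iff_right (by omega)]
    have e2 : (m * (s + 1) + 1) * (s + 1) + (s + 1) * s = (m + 1) * ((s + 1) * (s + 1)) := by ring
    constructor
    · intro h
      have h3 : (m + 1) ∣ (m * (s + 1) + 1) * (s + 1) + (s + 1) * s := by rw [e2]; exact dvd_mul_right _ _
      exact (Nat.dvd_add_right h).1 h3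
    · intro h
      have h3 : (m + 1) ∣ (m * (s + 1) + 1) * (s + 1) + (s + 1) * s := by rw [e2]; exact dvd_mul_right _ _
      exact (Nat.dvd_add_left h).1 h3
  rw [h0]
  constructor
  · rintro ⟨h1, t, ht⟩
    have hn' : n = (q - 1) * t + 1 := by omega
    rcases Nat.eq_zero_or_pos t with h | h
    · exact ⟨t, hn', by rw [h]; simp⟩
    · exact ⟨t, hn', (main t h hn').1 h1⟩
  · rintro ⟨t, hn', h⟩
    refine ⟨?_, t, by omega⟩
    rcases Nat.eq_zero_or_pos t with h2 | h2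
    · have : n - 1 = 0 := by rw [hn', h2]; simp
      rw [this, mul_zero]
      exact dvd_zero _
    · exact (main t h2 hn').2 h

/-- factorisation of `q ∣ t (t - 1)` -/
lemma gcd_mul_gcd {q t : ℕ} (ht : 1 ≤ t) (h : q ∣ t * (t - 1)) :
    Nat.gcd q t * Nat.gcd q (t - 1) = q := by
  have h5 : Nat.Coprime t (t - 1) := by
    have : Nat.Coprime (t - 1 + 1) (t - 1) := by simp
    rwa [Nat.sub_add_cancel ht] at this
  rw [← Nat.Coprime.gcd_mul q h5]
  exact Nat.gcd_eq_left h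

lemma coprime_gcds {q t : ℕ} (ht : 1 ≤ t) : Nat.Coprime (Nat.gcd q t) (Nat.gcd q (t - 1)) := by
  have h5 : Nat.Coprime t (t - 1) := by
    have : Nat.Coprime (t - 1 + 1) (t - 1) := by simp
    rwa [Nat.sub_add_cancel ht] at this
  exact Nat.Coprime.coprime_dvd_left (Nat.gcd_dvd_right q t)
    (Nat.Coprime.coprime_dvd_right (Nat.gcd_dvd_right q (t - 1)) h5)

open Classical in
/-- the nontrivial pairs `(n,q)` with `n ≤ X`, `q ≥ Q` which satisfy the divisibility conditions -/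
noncomputable def PD (X Q : ℕ) : Finset (ℕ × ℕ) :=
  (Icc 1 X ×ˢ Icc 3 X).filter (fun p => p.2 < p.1 ∧ Q ≤ p.2 ∧ D p.1 p.2)

/-- the triple of a pair -/
def tri (p : ℕ × ℕ) : (_ : ℕ × ℕ) × ℕ :=
  ⟨(Nat.gcd p.2 ((p.1 - 1) / (p.2 - 1)), Nat.gcd p.2 ((p.1 - 1) / (p.2 - 1) - 1)), (p.1 - 1) / (p.2 - 1)⟩

lemma D_data {n q : ℕ} (hq : 3 ≤ q) (hqn : q < n) (hD : D n q) :
    ∃ t, 2 ≤ t ∧ n = (q - 1) * t + 1 ∧ q ∣ t * (t - 1) ∧ (n - 1) / (q - 1) = t := by
  obtain ⟨t, h1, h2⟩ := (D_iff (by omega) (by omega)).1 hD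
  have ht : 2 ≤ t := by
    by_contra hcon
    push Not at hcon
    interval_cases t
    · omega
    · omega
  refine ⟨t, ht, h1, h2, ?_⟩
  rw [h1, Nat.add_sub_cancel]
  exact Nat.mul_div_cancel_left t (by omega)

lemma mem_TS {X q t : ℕ} (hq : 3 ≤ q) (ht : 2 ≤ t) (h1 : (q - 1) * t + 1 ≤ X) (h2 : q ∣ t * (t - 1)) :
    t ∈ TS X (Nat.gcd q t) (Nat.gcd q (t - 1)) := by
  unfold TS
  rw [mem_filter, mem_Icc, gcd_mul_gcd (by omega) h2]
  refine ⟨⟨ht, ?_⟩, Nat.gcd_dvd_right _ _, Nat.gcd_dvd_right _ _, h1⟩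
  have : t ≤ (q - 1) * t := Nat.le_mul_of_pos_left _ (by omega)
  omega

/-- the upper bound for the number of pairs with large `q` -/
theorem PD_card (X Q A : ℕ) (hQ : 1 ≤ Q) (hA : 1 ≤ A) :
    ((PD X Q).card : ℝ) ≤ 2 * X * ((6 + 2 * Real.log Q) / Q) + (2 * (A : ℝ) ^ 2 + 8 * X / A) := by
  classical
  have h1 : (PD X Q).card ≤ (((Icc 1 X ×ˢ Icc 1 X).filter (fun p : ℕ × ℕ => Q ≤ p.1 * p.2 ∧ 3 ≤ p.1 * p.2)).sigma
      (fun p => TS X p.1 p.2)).card := by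
    apply card_le_card_of_injOn tri
    · intro p hp
      unfold PD at hp
      rw [mem_coe, mem_filter, mem_product, mem_Icc, mem_Icc] at hp
      obtain ⟨⟨⟨h1, h2⟩, h3, h4⟩, h5, h6, h7⟩ := hp
      obtain ⟨t, ht, e1, e2, e3⟩ := D_data h3 h5 h7
      have g := gcd_mul_gcd (q := p.2) (t := t) (by omega) e2
      unfold tri
      rw [e3]
      simp only [mem_coe, mem_sigma, mem_filter, mem_product, mem_Icc]
      have hq0 : 0 < p.2 := by omega
      refine ⟨⟨⟨⟨Nat.gcd_pos_of_pos_left _ hq0, ?_⟩, Nat.gcd_pos_of_pos_left _ hq0, ?_⟩, ?_, ?_⟩,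
        mem_TS h3 ht (by rw [← e1]; exact h2) e2⟩
      · exact (Nat.le_of_dvd hq0 (Nat.gcd_dvd_left _ _)).trans h4
      · exact (Nat.le_of_dvd hq0 (Nat.gcd_dvd_left _ _)).trans h4
      · rw [g]; exact h6
      · rw [g]; exact h3
    · intro p hp p' hp' hpp
      unfold PD at hp hp'
      rw [mem_coe, mem_filter, mem_product, mem_Icc, mem_Icc] at hp hp'
      obtain ⟨⟨⟨h1, h2⟩, h3, h4⟩, h5, h6, h7⟩ := hp
      obtain ⟨⟨⟨h1', h2'⟩, h3', h4'⟩, h5', h6', h7'⟩ := hp'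
      obtain ⟨t, ht, e1, e2, e3⟩ := D_data h3 h5 h7
      obtain ⟨t', ht', e1', e2', e3'⟩ := D_data h3' h5' h7'
      have g := gcd_mul_gcd (q := p.2) (t := t) (by omega) e2
      have g' := gcd_mul_gcd (q := p'.2) (t := t') (by omega) e2'
      unfold tri at hpp
      rw [e3, e3'] at hpp
      simp only [Sigma.mk.injEq, Prod.mk.injEq, heq_eq_eq] at hpp
      obtain ⟨⟨k1, k2⟩, rfl⟩ := hpp
      have hq : p.2 = p'.2 := by rw [← g, ← g', k1, k2]
      have hn : p.1 = p'.1 := by rw [e1, e1', hq]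
      exact Prod.ext hn hq
  have h2 : (((((Icc 1 X ×ˢ Icc 1 X).filter (fun p : ℕ × ℕ => Q ≤ p.1 * p.2 ∧ 3 ≤ p.1 * p.2)).sigma
      (fun p => TS X p.1 p.2)).card : ℕ) : ℝ) =
      ∑ p ∈ (Icc 1 X ×ˢ Icc 1 X).filter (fun p : ℕ × ℕ => Q ≤ p.1 * p.2 ∧ 3 ≤ p.1 * p.2), ((TS X p.1 p.2).card : ℝ) := by
    rw [card_sigma]
    push_cast
    rfl
  have h3 : ((PD X Q).card : ℝ) ≤
      ∑ p ∈ (Icc 1 X ×ˢ Icc 1 X).filter (fun p : ℕ × ℕ => Q ≤ p.1 * p.2 ∧ 3 ≤ p.1 * p.2), ((TS X p.1 p.2).card : ℝ) := by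
    rw [← h2]
    exact_mod_cast h1
  refine h3.trans ?_
  have h4 : ∑ p ∈ (Icc 1 X ×ˢ Icc 1 X).filter (fun p : ℕ × ℕ => Q ≤ p.1 * p.2 ∧ 3 ≤ p.1 * p.2), ((TS X p.1 p.2).card : ℝ) ≤
      ∑ p ∈ (Icc 1 X ×ˢ Icc 1 X).filter (fun p : ℕ × ℕ => Q ≤ p.1 * p.2 ∧ 3 ≤ p.1 * p.2),
        (2 * X * (((p.1 : ℝ) * p.2) ^ 2)⁻¹ + (if p.1 * p.2 * max p.1 p.2 ≤ 2 * X then 1 else 0)) := by
    apply sum_le_sum
    intro p hp
    rw [mem_filter] at hp
    exact TS_card X p.1 p.2 hp.2.2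
  refine h4.trans ?_
  rw [sum_add_distrib]
  apply add_le_add
  · rw [← mul_sum]
    apply mul_le_mul_of_nonneg_left _ (by positivity)
    refine le_trans ?_ (sum_tail X Q hQ)
    apply sum_le_sum_of_subset_of_nonneg
    · intro p hp
      rw [mem_filter] at hp ⊢
      exact ⟨hp.1, hp.2.1⟩
    · intro p _ _
      positivity
  · rw [← sum_filter, sum_const, nsmul_eq_mul, mul_one]
    apply few_pairs X A hA
    intro p hp
    rw [mem_filter, mem_filter, mem_product, mem_Icc, mem_Icc] at hp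
    exact ⟨hp.1.1.1.1, hp.1.1.2.1, hp.2⟩

end Pool.Agent.N696.SA
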